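import Pool.Agent.Helper17.DC.Bad

set_option autoImplicit false

/-!
# Sets which are determined by few of their elements

`fam G D i r` is a family of vertex sets which contains every set that can be listed as `x_1, ..., x_i` in such a way
that all but at most `r` of the `x_j` are neighbours of an earlier element of degree at most `D`.
-/

namespace Pool.Agent.Helper17.DC

open Finset

variable {V : Type} [Fintype V] [DecidableEq V] (G : SimpleGraph V) [DecidableRel G.Adj]

/-- Add a neighbour of an element of degree at most `D`. -/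
def stepFam (D : ℕ) (X : Finset V) : Finset (Finset V) :=
  (X.filter fun x => (nb G x).card ≤ D).biUnion fun x => (nb G x).image fun y => insert y X

/-- The sets built in `i` steps, `r` of which are free. -/
def fam (D : ℕ) : ℕ → ℕ → Finset (Finset V)
  | 0, _ => {∅}
  | i + 1, 0 => (fam D i 0).biUnion (stepFam G D)
  | i + 1, r + 1 => (fam D i r).biUnion (fun X => univ.image fun y => insert y X) ∪
      (fam D i (r + 1)).biUnion (stepFam G D)

theorem stepFam_card (D : ℕ) (X : Finset V) : (stepFam G D X).card ≤ X.card * D := by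
  refine (card_biUnion_le_card_mul _ _ D fun x hx => ?_).trans
    (Nat.mul_le_mul_right _ (card_filter_le _ _))
  exact card_image_le.trans (mem_filter.mp hx).2

theorem fam_size (D : ℕ) : ∀ i r : ℕ, ∀ X ∈ fam G D i r, X.card ≤ i
  | 0, r, X, hX => by
    rw [fam, mem_singleton] at hX
    rw [hX, card_empty]
  | i + 1, 0, X, hX => by
    rw [fam, mem_biUnion] at hX
    obtain ⟨A, hA, hX⟩ := hX
    rw [stepFam, mem_biUnion] at hX
    obtain ⟨x, -, hX⟩ := hX
    obtain ⟨y, -, rfl⟩ := mem_image.mp hX
    exact (card_insert_le _ _).trans (Nat.succ_le_succ (fam_size D i 0 A hA))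
  | i + 1, r + 1, X, hX => by
    rw [fam, mem_union] at hX
    rcases hX with hX | hX
    · rw [mem_biUnion] at hX
      obtain ⟨A, hA, hX⟩ := hX
      obtain ⟨y, -, rfl⟩ := mem_image.mp hX
      exact (card_insert_le _ _).trans (Nat.succ_le_succ (fam_size D i r A hA))
    · rw [mem_biUnion] at hX
      obtain ⟨A, hA, hX⟩ := hX
      rw [stepFam, mem_biUnion] at hX
      obtain ⟨x, -, hX⟩ := hX
      obtain ⟨y, -, rfl⟩ := mem_image.mp hX
      exact (card_insert_le _ _).trans (Nat.succ_le_succ (fam_size D i (r + 1) A hA))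

theorem fam_card (D k : ℕ) (hV : 1 ≤ Fintype.card V) : ∀ i r : ℕ, i ≤ k →
    (fam G D i r).card ≤ (k * D + 1) ^ i * Fintype.card V ^ r
  | 0, r, _ => by
    rw [fam, card_singleton, pow_zero, one_mul]
    exact Nat.one_le_pow _ _ hV
  | i + 1, 0, hi => by
    have h1 : (fam G D (i + 1) 0).card ≤ (fam G D i 0).card * (k * D) := by
      rw [fam]
      refine card_biUnion_le_card_mul _ _ _ fun X hX => ?_
      have h2 := fam_size G D i 0 X hX
      exact (stepFam_card G D X).trans (Nat.mul_le_mul_right _ (by omega))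
    have h2 := fam_card D k hV i 0 (by omega)
    rw [pow_zero, mul_one] at h2 ⊢
    calc (fam G D (i + 1) 0).card ≤ (k * D + 1) ^ i * (k * D) :=
          h1.trans (Nat.mul_le_mul_right _ h2)
      _ ≤ (k * D + 1) ^ (i + 1) := by
          rw [pow_succ]
          exact Nat.mul_le_mul_left _ (Nat.le_succ _)
  | i + 1, r + 1, hi => by
    have h1 : (fam G D (i + 1) (r + 1)).card ≤ (fam G D i r).card * Fintype.card V +
        (fam G D i (r + 1)).card * (k * D) := by
      rw [fam]
      refine (card_union_le _ _).trans (Nat.add_le_add ?_ ?_)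
      · refine card_biUnion_le_card_mul _ _ _ fun X hX => ?_
        exact card_image_le.trans (by rw [card_univ])
      · refine card_biUnion_le_card_mul _ _ _ fun X hX => ?_
        have h2 := fam_size G D i (r + 1) X hX
        exact (stepFam_card G D X).trans (Nat.mul_le_mul_right _ (by omega))
    have h2 := fam_card D k hV i r (by omega)
    have h3 := fam_card D k hV i (r + 1) (by omega)
    calc (fam G D (i + 1) (r + 1)).card ≤
          (k * D + 1) ^ i * Fintype.card V ^ r * Fintype.card V +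
          (k * D + 1) ^ i * Fintype.card V ^ (r + 1) * (k * D) :=
          h1.trans (Nat.add_le_add (Nat.mul_le_mul_right _ h2) (Nat.mul_le_mul_right _ h3))
      _ = (k * D + 1) ^ (i + 1) * Fintype.card V ^ (r + 1) := by ring

theorem fam_mono (D : ℕ) : ∀ i r : ℕ, fam G D i r ⊆ fam G D i (r + 1)
  | 0, r => by rw [fam, fam]
  | i + 1, 0 => by
    rw [fam, fam]
    exact (biUnion_subset_biUnion_of_subset_left _ (fam_mono D i 0)).trans subset_union_right
  | i + 1, r + 1 => by
    rw [fam, fam]
    exact union_subset_union (biUnion_subset_biUnion_of_subset_left _ (fam_mono D i r))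
      (biUnion_subset_biUnion_of_subset_left _ (fam_mono D i (r + 1)))

theorem fam_mono' (D i : ℕ) {r r' : ℕ} (h : r ≤ r') : fam G D i r ⊆ fam G D i r' := by
  obtain ⟨j, rfl⟩ := Nat.exists_eq_add_of_le h
  clear h
  induction j with
  | zero => exact Subset.rfl
  | succ j ih => exact ih.trans (fam_mono G D i (r + j))

/-- `A` is listed with at most `r` free choices. -/
def Built (D r : ℕ) (A : Finset V) : Prop := A ∈ fam G D A.card r

theorem built_empty (D r : ℕ) : Built G D r ∅ := by
  rw [Built, card_empty, fam, mem_singleton]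

variable {G}

theorem Built.mono {D r r' : ℕ} {A : Finset V} (h : Built G D r A) (hr : r ≤ r') :
    Built G D r' A := fam_mono' G D _ hr h

theorem Built.free {D r : ℕ} {A : Finset V} (h : Built G D r A) {y : V} (hy : y ∉ A) :
    Built G D (r + 1) (insert y A) := by
  rw [Built, card_insert_of_notMem hy, fam]
  exact mem_union_left _ (mem_biUnion.mpr ⟨A, h, mem_image.mpr ⟨y, mem_univ _, rfl⟩⟩)

theorem Built.nbr {D r : ℕ} {A : Finset V} (h : Built G D r A) {x y : V} (hx : x ∈ A)
    (hxD : (nb G x).card ≤ D) (hxy : y ∈ nb G x) (hy : y ∉ A) : Built G D r (insert y A) := by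
  have h1 : insert y A ∈ stepFam G D A := by
    rw [stepFam, mem_biUnion]
    exact ⟨x, mem_filter.mpr ⟨hx, hxD⟩, mem_image.mpr ⟨y, hxy, rfl⟩⟩
  rw [Built, card_insert_of_notMem hy]
  cases r with
  | zero =>
    rw [fam]
    exact mem_biUnion.mpr ⟨A, h, h1⟩
  | succ r =>
    rw [fam]
    exact mem_union_right _ (mem_biUnion.mpr ⟨A, h, h1⟩)

theorem Built.union {D : ℕ} {A : Finset V} (B : Finset V) : ∀ {r : ℕ}, Built G D r A →
    Disjoint A B → Built G D (r + B.card) (A ∪ B) := by
  classical
  induction B using Finset.induction_on with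
  | empty =>
    intro r h _
    rwa [union_empty, card_empty]
  | @insert y B hy ih =>
    intro r h hd
    rw [disjoint_insert_right] at hd
    have h1 := ih h hd.2
    have h2 : y ∉ A ∪ B := by
      rw [mem_union, not_or]
      exact ⟨hd.1, hy⟩
    have h3 := h1.free h2
    rwa [union_insert, card_insert_of_notMem hy]

/-- `A` contains the neighbours in `X` of its elements in `S`. -/
def Closed (G : SimpleGraph V) [DecidableRel G.Adj] (X S A : Finset V) : Prop :=
  ∀ s ∈ S, s ∈ A → nb G s ∩ X ⊆ A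

theorem exists_closure {D r : ℕ} {X S : Finset V} (hS : ∀ s ∈ S, (nb G s).card ≤ D) :
    ∀ (m : ℕ) (A : Finset V), (X \ A).card = m → A ⊆ X → Built G D r A →
      ∃ A', A ⊆ A' ∧ A' ⊆ X ∧ Built G D r A' ∧ Closed G X S A' := by
  intro m
  induction m with
  | zero =>
    intro A hm hAX hA
    refine ⟨A, Subset.rfl, hAX, hA, fun s _ _ v hv => ?_⟩
    rw [card_eq_zero, sdiff_eq_empty_iff_subset] at hm
    exact hm (mem_inter.mp hv).2
  | succ m ih =>
    intro A hm hAX hA
    by_cases hc : Closed G X S A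
    · exact ⟨A, Subset.rfl, hAX, hA, hc⟩
    · unfold Closed at hc
      push Not at hc
      obtain ⟨s, hsS, hsA, hs⟩ := hc
      obtain ⟨y, hy, hyA⟩ := not_subset.mp hs
      obtain ⟨hy1, hy2⟩ := mem_inter.mp hy
      obtain ⟨A', h1, h2, h3, h4⟩ := ih (insert y A) (by
        rw [sdiff_insert, card_erase_of_mem (mem_sdiff.mpr ⟨hy2, hyA⟩)]
        omega) (insert_subset hy2 hAX) (hA.nbr hsA (hS s hsS) hy1 hyA)
      exact ⟨A', (subset_insert _ _).trans h1, h2, h3, h4⟩

/-- The elements of `X` outside `S` without neighbours in `S`. -/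
def restSet (G : SimpleGraph V) [DecidableRel G.Adj] (X S : Finset V) : Finset V :=
  X.filter fun y => y ∉ S ∧ ∀ s ∈ S, ¬ G.Adj s y

theorem nb_inter_le {X S : Finset V} (hSX : S ⊆ X) {s : V} (hs : s ∈ S) :
    (nb G s ∩ X).card + S.card + (restSet G X S).card ≤ (nb G s ∩ S).card + X.card := by
  have h1 : nb G s ∩ X ⊆ (nb G s ∩ S) ∪ ((X \ S) \ restSet G X S) := by
    intro v hv
    obtain ⟨hv1, hv2⟩ := mem_inter.mp hv
    by_cases hvS : v ∈ S
    · exact mem_union_left _ (mem_inter.mpr ⟨hv1, hvS⟩)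
    · refine mem_union_right _ (mem_sdiff.mpr ⟨mem_sdiff.mpr ⟨hv2, hvS⟩, fun h => ?_⟩)
      exact (mem_filter.mp h).2.2 s hs ((mem_nb G).mp hv1)
  have h2 := (card_le_card h1).trans (card_union_le _ _)
  have h3 : restSet G X S ⊆ X \ S := fun v hv =>
    mem_sdiff.mpr ⟨(mem_filter.mp hv).1, (mem_filter.mp hv).2.1⟩
  rw [card_sdiff_of_subset h3, card_sdiff_of_subset hSX] at h2
  have h4 := card_le_card h3
  rw [card_sdiff_of_subset hSX] at h4
  have h5 := card_le_card hSX
  omega

/-- A new element of `S` brings its neighbours in `S`. -/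
theorem gain {X S A A' : Finset V} (hSX : S ⊆ X) (hA : Closed G X S A) (hAA : A ⊆ A')
    (hA' : Closed G X S A') {s : V} (hs : s ∈ S) (hsA : s ∉ A) (hsA' : s ∈ A') :
    (A ∩ S).card + 1 + (nb G s ∩ S).card ≤ (A' ∩ S).card := by
  have h1 : A ∩ S ∪ insert s (nb G s ∩ S) ⊆ A' ∩ S := by
    intro v hv
    rw [mem_union, mem_insert] at hv
    rcases hv with hv | rfl | hv
    · exact mem_inter.mpr ⟨hAA (mem_inter.mp hv).1, (mem_inter.mp hv).2⟩
    · exact mem_inter.mpr ⟨hsA', hs⟩
    · obtain ⟨hv1, hv2⟩ := mem_inter.mp hv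
      exact mem_inter.mpr ⟨hA' s hs hsA' (mem_inter.mpr ⟨hv1, hSX hv2⟩), hv2⟩
  have h2 : Disjoint (A ∩ S) (insert s (nb G s ∩ S)) := by
    rw [disjoint_left]
    intro v hv hv'
    obtain ⟨hv1, hv2⟩ := mem_inter.mp hv
    rw [mem_insert] at hv'
    rcases hv' with rfl | hv'
    · exact hsA hv1
    · have h3 : s ∈ nb G v := by
        rw [mem_nb]
        exact ((mem_nb G).mp (mem_inter.mp hv').1).symm
      exact hsA (hA v hv2 hv1 (mem_inter.mpr ⟨h3, hSX hs⟩))
  have h3 := card_le_card h1
  have h4 : s ∉ nb G s ∩ S := fun h => G.loopless.irrefl s ((mem_nb G).mp (mem_inter.mp h).1)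
  rw [card_union_of_disjoint h2, card_insert_of_notMem h4] at h3
  omega

theorem exists_cover {D : ℕ} {X S : Finset V} (q : ℕ) (hSX : S ⊆ X)
    (hS : ∀ s ∈ S, (nb G s).card ≤ D)
    (hin : ∀ s ∈ S, X.card + 1 + q ≤ S.card + (nb G s ∩ X).card) :
    ∀ (m : ℕ) (A : Finset V) (r : ℕ), (S \ A).card = m → A ⊆ X → Built G D r A →
      Closed G X S A → r * (2 + q + (restSet G X S).card) + 1 ≤ (A ∩ S).card →
      ∃ A' r', r ≤ r' ∧ A' ⊆ X ∧ S ⊆ A' ∧ Built G D r' A' ∧ Closed G X S A' ∧
        r' * (2 + q + (restSet G X S).card) + 1 ≤ S.card := by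
  intro m
  induction m using Nat.strong_induction_on with
  | _ m ih =>
    intro A r hm hAX hA hc hr
    by_cases hSA : S ⊆ A
    · refine ⟨A, r, le_rfl, hAX, hSA, hA, hc, hr.trans (card_le_card inter_subset_right)⟩
    · obtain ⟨s, hs, hsA⟩ := not_subset.mp hSA
      obtain ⟨A', h1, h2, h3, h4⟩ := exists_closure (G := G) hS _ (insert s A) rfl
        (insert_subset (hSX hs) hAX) (hA.free hsA)
      have hsA' : s ∈ A' := h1 (mem_insert_self _ _)
      have hAA' : A ⊆ A' := (subset_insert _ _).trans h1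
      have h5 := gain hSX hc hAA' h4 hs hsA hsA'
      have h6 := nb_inter_le (G := G) hSX hs
      have h7 := hin s hs
      obtain ⟨A'', r', g1, g2, g3, g4, g5, g6⟩ := ih _ (by
        rw [← hm]
        refine card_lt_card (Finset.ssubset_iff_subset_ne.mpr ⟨sdiff_subset_sdiff Subset.rfl hAA',
          fun h => ?_⟩)
        have h8 : s ∈ S \ A := mem_sdiff.mpr ⟨hs, hsA⟩
        rw [← h] at h8
        exact (mem_sdiff.mp h8).2 hsA') A' (r + 1) rfl h2 h3 h4 (by
          have h9 : (r + 1) * (2 + q + (restSet G X S).card) =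
            r * (2 + q + (restSet G X S).card) + (2 + q + (restSet G X S).card) := by ring
          omega)
      exact ⟨A'', r', (Nat.le_succ r).trans g1, g2, g3, g4, g5, g6⟩

/-- A set `X` with a subset `S` of vertices of small degree, each with many neighbours in `X`, is
listed with few free choices. -/
theorem built_of_dense {D : ℕ} {X S : Finset V} (q : ℕ) (hSX : S ⊆ X)
    (hS : ∀ s ∈ S, (nb G s).card ≤ D)
    (hin : ∀ s ∈ S, X.card + 1 + q ≤ S.card + (nb G s ∩ X).card)
    {s₀ : V} (hs₀ : s₀ ∈ S) (hin₀ : X.card + 2 + q ≤ S.card + (nb G s₀ ∩ X).card) :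
    Built G D ((X.card - 1 - q) / 2) X := by
  obtain ⟨A, h1, h2, h3, h4⟩ := exists_closure (G := G) (X := X) hS _ (insert s₀ ∅) rfl
    (insert_subset (hSX hs₀) (empty_subset _)) ((built_empty G D 0).free (notMem_empty s₀))
  have hs₀A : s₀ ∈ A := h1 (mem_insert_self _ _)
  have h5 := gain (A := ∅) hSX (fun s _ h => absurd h (notMem_empty s)) (empty_subset A) h4 hs₀
    (notMem_empty _) hs₀A
  have h6 := nb_inter_le (G := G) hSX hs₀
  rw [empty_inter, card_empty] at h5
  obtain ⟨A', r, g1, g2, g3, g4, g5, g6⟩ := exists_cover q hSX hS hin _ A 1 rfl h2 h3 h4 (by omega)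
  have h7 : X \ A' ⊆ restSet G X S := by
    intro y hy
    obtain ⟨hy1, hy2⟩ := mem_sdiff.mp hy
    refine mem_filter.mpr ⟨hy1, fun h => hy2 (g3 h), fun s hs hsy => hy2 ?_⟩
    exact g5 s hs (g3 hs) (mem_inter.mpr ⟨(mem_nb G).mpr hsy, hy1⟩)
  have h8 := g4.union (X \ A') disjoint_sdiff
  rw [union_sdiff_of_subset g2] at h8
  refine h8.mono ?_
  have h9 := card_le_card h7
  have h10 : S.card + (restSet G X S).card ≤ X.card := by
    rw [← card_union_of_disjoint (by
      rw [disjoint_right]
      intro v hv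
      exact (mem_filter.mp hv).2.1)]
    exact card_le_card (union_subset hSX (filter_subset _ _))
  have h11 : (restSet G X S).card ≤ r * (restSet G X S).card := Nat.le_mul_of_pos_left _ g1
  have h12 : r * (2 + q + (restSet G X S).card) = 2 * r + r * q + r * (restSet G X S).card := by
    ring
  have h13 : q ≤ r * q := Nat.le_mul_of_pos_left _ g1
  omega

end Pool.Agent.Helper17.DC
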