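import Pool.Agent.Helper76.DC.Profile
import Pool.Agent.Helper17.DC.Built

set_option autoImplicit false

/-!
# Disjoint cycles for almost all sets of `k` vertices

In a `(2k + s)`-connected graph on `n ≥ 3k` vertices all but at most `(3k²)^k n^((k-1-s)/2)` of the `k`-sets `X` have
`k` disjoint cycles each containing exactly one vertex of `X`.
-/

namespace Pool.Agent.Helper17.DC

open Finset
open Pool.Agent.DC (KConn DisjCycles outN kconn_degree)

section

variable {V : Type} [Fintype V] [DecidableEq V] (G : SimpleGraph V) [DecidableRel G.Adj]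

theorem nb_card_eq (X : Finset V) (x : V) :
    (nb G x).card = (outN G X x).card + (nb G x ∩ X).card := by
  have h1 : nb G x \ X = outN G X x := by
    ext v
    simp [mem_nb, outN]
  rw [← h1, card_sdiff_add_card_inter]

theorem nb_inter_lt {X : Finset V} {x : V} (hx : x ∈ X) : (nb G x ∩ X).card + 1 ≤ X.card := by
  have h1 : nb G x ∩ X ⊆ X.erase x := by
    intro v hv
    obtain ⟨hv1, hv2⟩ := mem_inter.mp hv
    exact mem_erase.mpr ⟨((mem_nb G).mp hv1).ne', hv2⟩
  have h2 := card_le_card h1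
  rw [card_erase_of_mem hx] at h2
  have h3 : 0 < X.card := card_pos.mpr ⟨x, hx⟩
  omega

/-- The vertices of `X` with at most `k + j` neighbours outside `X`. -/
def lev (k : ℕ) (X : Finset V) (j : ℕ) : Finset V := X.filter fun x => (outN G X x).card ≤ k + j

variable {G}

theorem lev_in {k s : ℕ} (hG : KConn G (2 * k + s)) {X : Finset V} {j : ℕ} {x : V}
    (hx : x ∈ lev G k X j) : k + s ≤ (nb G x ∩ X).card + j := by
  have h1 := nb_card_eq G X x
  have h2 : 2 * k + s ≤ (nb G x).card := kconn_degree G hG x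
  have h3 := (mem_filter.mp hx).2
  omega

theorem lev_deg {k : ℕ} {X : Finset V} (hXk : X.card = k) {j : ℕ} (hj : j < k) {x : V}
    (hx : x ∈ lev G k X j) : (nb G x).card ≤ 3 * k - 2 := by
  have h1 := nb_card_eq G X x
  have h3 := (mem_filter.mp hx).2
  have h4 := nb_inter_lt G (mem_filter.mp hx).1
  omega

theorem built_of_not_cycles {k s : ℕ} (hk : 1 ≤ k) (hV : 3 * k ≤ Fintype.card V)
    (hG : KConn G (2 * k + s)) (X : Finset V) (hXk : X.card = k) (h : ¬ DisjCycles G X) :
    Built G (3 * k - 2) ((k - 1 - s) / 2) X := by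
  have hG' : KConn G (2 * k) := ⟨by have := hG.1; omega, fun S hS => hG.2 S (by omega)⟩
  have hmono : ∀ i j : ℕ, i ≤ j → lev G k X i ⊆ lev G k X j := by
    intro i j hij x hx
    obtain ⟨hx1, hx2⟩ := mem_filter.mp hx
    exact mem_filter.mpr ⟨hx1, hx2.trans (by omega)⟩
  have key : ∀ j < k, j + 1 ≤ (lev G k X j).card → (∃ s₀ ∈ lev G k X j,
      k + 2 + s ≤ (lev G k X j).card + (nb G s₀ ∩ X).card) →
      Built G (3 * k - 2) ((k - 1 - s) / 2) X := by
    rintro j hj hcard ⟨s₀, hs₀, hs₀'⟩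
    have h1 := built_of_dense (G := G) (D := 3 * k - 2) (X := X) (S := lev G k X j) s
      (filter_subset _ _) (fun s hs => lev_deg hXk hj hs) (fun s hs => by
        have := lev_in hG hs
        omega) hs₀ (by rw [hXk]; exact hs₀')
    rwa [hXk] at h1
  by_cases hex : ∃ j < k, j + 1 ≤ (lev G k X j).card
  · obtain ⟨j, hj, hcard⟩ := hex
    by_cases h2 : j + 2 ≤ (lev G k X j).card
    · obtain ⟨s₀, hs₀⟩ := card_pos.mp (show 0 < (lev G k X j).card by omega)
      refine key j hj hcard ⟨s₀, hs₀, ?_⟩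
      have := lev_in hG hs₀
      omega
    · by_cases h3 : ∃ i < k, i ≠ j ∧ i + 1 ≤ (lev G k X i).card
      · obtain ⟨i, hi, hij, hicard⟩ := h3
        rcases Nat.lt_or_ge i j with hlt | hge
        · obtain ⟨s₀, hs₀⟩ := card_pos.mp (show 0 < (lev G k X i).card by omega)
          refine key j hj hcard ⟨s₀, hmono i j hlt.le hs₀, ?_⟩
          have := lev_in hG hs₀
          omega
        · obtain ⟨s₀, hs₀⟩ := card_pos.mp (show 0 < (lev G k X j).card by omega)
          refine key i hi hicard ⟨s₀, hmono j i hge hs₀, ?_⟩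
          have := lev_in hG hs₀
          omega
      · push Not at h3
        refine absurd (Pool.Agent.Helper76.DC.profile_main G k j hk hV hG' X hXk
          (fun i hi hij => ?_) ?_) h
        · have := h3 i hi hij
          unfold lev at this
          omega
        · unfold lev at h2
          omega
  · push Not at hex
    refine absurd (Pool.Agent.Helper76.DC.profile_main G k k hk hV hG' X hXk
      (fun i hi _ => ?_) ?_) h
    · have := hex i hi
      unfold lev at this
      omega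
    · exact (card_filter_le _ _).trans (by omega)

end

/-- The number of failing sets. -/
theorem few_fail {V : Type} [Fintype V] (G : SimpleGraph V) (k s : ℕ) (hk : 1 ≤ k)
    (hV : 3 * k ≤ Fintype.card V) (hG : KConn G (2 * k + s)) :
    {X : Finset V | X.card = k ∧ ¬ DisjCycles G X}.ncard ≤
      (3 * k ^ 2) ^ k * Fintype.card V ^ ((k - 1 - s) / 2) := by
  classical
  have h1 : {X : Finset V | X.card = k ∧ ¬ DisjCycles G X} ⊆
      ((fam G (3 * k - 2) k ((k - 1 - s) / 2) : Finset (Finset V)) : Set (Finset V)) := by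
    rintro X ⟨hXk, hX⟩
    have h2 := built_of_not_cycles hk hV hG X hXk hX
    rw [Built, hXk] at h2
    exact mem_coe.mpr h2
  have h2 := Set.ncard_le_ncard h1 (Finset.finite_toSet _)
  rw [Set.ncard_coe_finset] at h2
  refine h2.trans ((fam_card G (3 * k - 2) k (by omega) k _ le_rfl).trans
    (Nat.mul_le_mul_right _ (Nat.pow_le_pow_left ?_ k)))
  obtain ⟨m, rfl⟩ : ∃ m, k = m + 1 := ⟨k - 1, by omega⟩
  have h3 : 3 * (m + 1) - 2 = 3 * m + 1 := by omega
  rw [h3]
  nlinarith

/-- The bound is small compared with the number of all `k`-sets. -/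
theorem bound_small (k : ℕ) (hk : 1 ≤ k) (ε : ℝ) (hε : 0 < ε) :
    ∃ n₀ : ℕ, ∀ n : ℕ, n₀ ≤ n →
      (((3 * k ^ 2) ^ k * n ^ ((k - 1) / 2) : ℕ) : ℝ) ≤ ε * (n.choose k : ℝ) := by
  set C : ℕ := (3 * k ^ 2) ^ k * 2 ^ k * k.factorial with hC
  obtain ⟨n₁, hn₁⟩ := exists_nat_ge ((C : ℝ) / ε)
  refine ⟨max n₁ (2 * k), fun n hn => ?_⟩
  have hn1 : n₁ ≤ n := (le_max_left _ _).trans hn
  have hn2 : 2 * k ≤ n := (le_max_right _ _).trans hn
  have h1 : n ^ k ≤ 2 ^ k * (k.factorial * n.choose k) := by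
    have h2 : (n + 1 - k) ^ k ≤ k.factorial * n.choose k := by
      have := Nat.pow_sub_le_descFactorial n k
      rwa [Nat.descFactorial_eq_factorial_mul_choose] at this
    calc n ^ k ≤ (2 * (n + 1 - k)) ^ k := Nat.pow_le_pow_left (by omega) k
      _ = 2 ^ k * (n + 1 - k) ^ k := mul_pow _ _ _
      _ ≤ 2 ^ k * (k.factorial * n.choose k) := Nat.mul_le_mul_left _ h2
  have h3 : (3 * k ^ 2) ^ k * n ^ ((k - 1) / 2) * n ≤ C * n.choose k := by
    have h4 : n ^ ((k - 1) / 2) * n ≤ n ^ k := by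
      rw [← pow_succ]
      exact Nat.pow_le_pow_right (by omega) (by omega)
    calc (3 * k ^ 2) ^ k * n ^ ((k - 1) / 2) * n = (3 * k ^ 2) ^ k * (n ^ ((k - 1) / 2) * n) := by
          ring
      _ ≤ (3 * k ^ 2) ^ k * (2 ^ k * (k.factorial * n.choose k)) :=
          Nat.mul_le_mul_left _ (h4.trans h1)
      _ = C * n.choose k := by rw [hC]; ring
  have hn0 : (0 : ℝ) < n := by
    have : 0 < n := by omega
    exact_mod_cast this
  have h5 : (C : ℝ) ≤ ε * n := by
    have h6 : (C : ℝ) / ε ≤ n := hn₁.trans (by exact_mod_cast hn1)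
    rw [div_le_iff₀ hε] at h6
    linarith
  have h6 : (((3 * k ^ 2) ^ k * n ^ ((k - 1) / 2) : ℕ) : ℝ) * n ≤ C * n.choose k := by
    exact_mod_cast h3
  have h7 : (((3 * k ^ 2) ^ k * n ^ ((k - 1) / 2) : ℕ) : ℝ) * n ≤ (ε * n.choose k) * n :=
    h6.trans (by
      have := mul_le_mul_of_nonneg_right h5 (Nat.cast_nonneg (n.choose k) : (0 : ℝ) ≤ _)
      linarith)
  exact le_of_mul_le_mul_right h7 hn0

end Pool.Agent.Helper17.DC
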