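import Pool.Agent.Helper46.DC.SpreadMain

set_option autoImplicit false

/-!
# Bad pairs

The criterion for disjoint cycles through the vertices of `X` (`Pool.Agent.DC.criterion`), in terms of bad pairs
`(D, K)`: `D` outside `X`, `K` a subset of `X` with more than `|D|` vertices, each with at least `k + s` neighbours in
`X ∪ D`.
-/

namespace Pool.Agent.Helper17.DC

open Finset
open Pool.Agent.DC (KConn DisjCycles outN kconn_degree criterion)

section

variable {V : Type} [Fintype V] [DecidableEq V] (G : SimpleGraph V) [DecidableRel G.Adj]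

/-- The neighbours of `x`. -/
def nb (x : V) : Finset V := univ.filter fun y => G.Adj x y

omit [DecidableEq V] in
theorem mem_nb {x y : V} : y ∈ nb G x ↔ G.Adj x y := by simp [nb]

/-- A bad pair. -/
structure Bad (k s : ℕ) (X D K : Finset V) : Prop where
  disj : Disjoint D X
  sub : K ⊆ X
  card : X.card = k
  lt : D.card < K.card
  many : ∀ x ∈ K, k + s ≤ (nb G x ∩ (X ∪ D)).card

theorem cycles_of_no_bad (k s : ℕ) (hk : 1 ≤ k) (hG : KConn G (2 * k + s)) (X R : Finset V)
    (hXk : X.card = k) (hRX : R ⊆ Xᶜ) (hRk : R.card = k)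
    (h : ∀ D K : Finset V, Disjoint D R → Bad G k s X D K → False) : DisjCycles G X := by
  have hV : 2 * k + s < Fintype.card V := hG.1
  have hXR : Disjoint X R := by
    rw [disjoint_right]
    intro v hv
    have := hRX hv
    rwa [mem_compl] at this
  refine criterion G X R hXR (by rw [hRk, hXk]) (card_pos.1 (by omega)) ?_ ?_ ?_
  · by_contra hcon
    push Not at hcon
    have h1 : (univ : Finset V) ⊆ X ∪ R := by
      intro v _
      rw [mem_union]
      by_cases hv : v ∈ X
      · exact Or.inl hv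
      · exact Or.inr (hcon v hv)
    have h2 := card_le_card h1
    have h3 := card_union_le X R
    rw [card_univ] at h2
    omega
  · intro Z hZX hZ
    have h1 : (X ∪ Z).card < 2 * k + s := by
      have := card_union_le X Z
      omega
    have h2 : {v | v ∉ X ∪ Z} = {v | v ∉ X ∧ v ∉ Z} := by
      ext v
      simp [mem_union]
    rw [← h2]
    exact hG.2 (X ∪ Z) h1
  · intro D hDX hDR
    change (X.filter fun x => (outN G X x \ D).card ≤ X.card).card ≤ D.card
    by_contra hcon
    push Not at hcon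
    refine h D _ hDR ⟨hDX, filter_subset _ _, hXk, hcon, ?_⟩
    intro x hx
    obtain ⟨-, hx2⟩ := mem_filter.mp hx
    have h1 : nb G x ⊆ (nb G x ∩ (X ∪ D)) ∪ (outN G X x \ D) := by
      intro v hv
      by_cases hvY : v ∈ X ∪ D
      · exact mem_union_left _ (mem_inter.mpr ⟨hv, hvY⟩)
      · rw [mem_union, not_or] at hvY
        exact mem_union_right _ (mem_sdiff.mpr
          ⟨mem_filter.mpr ⟨mem_univ _, (mem_nb G).mp hv, hvY.1⟩, hvY.2⟩)
    have h2 := (card_le_card h1).trans (card_union_le _ _)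
    have h3 : 2 * k + s ≤ (nb G x).card := kconn_degree G hG x
    omega

variable {G} {k s : ℕ} {X D K : Finset V}

theorem Bad.union_card (h : Bad G k s X D K) : (X ∪ D).card = k + D.card := by
  rw [card_union_of_disjoint h.disj.symm, h.card]

theorem Bad.K_le (h : Bad G k s X D K) : K.card ≤ k := h.card ▸ card_le_card h.sub

/-- Two members of `K`: the number of common neighbours in `X ∪ D`. -/
theorem Bad.pair (h : Bad G k s X D K) {x y : V} (hx : x ∈ K) (hy : y ∈ K) :
    2 * (k + s) ≤ k + D.card + ((nb G x ∩ nb G y) ∩ (X ∪ D)).card := by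
  have h1 := card_union_add_card_inter (nb G x ∩ (X ∪ D)) (nb G y ∩ (X ∪ D))
  have h2 : (nb G x ∩ (X ∪ D) ∪ nb G y ∩ (X ∪ D)).card ≤ (X ∪ D).card :=
    card_le_card (union_subset inter_subset_right inter_subset_right)
  have h3 : nb G x ∩ (X ∪ D) ∩ (nb G y ∩ (X ∪ D)) = (nb G x ∩ nb G y) ∩ (X ∪ D) := by
    ext v
    simp only [mem_inter]
    tauto
  rw [h3] at h1
  rw [h.union_card] at h2
  have h4 := h.many x hx
  have h5 := h.many y hy
  omega

/-- `K` is not independent. -/
theorem Bad.edge (h : Bad G k s X D K) : ∃ x ∈ K, ∃ y ∈ K, G.Adj x y := by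
  by_contra hcon
  push Not at hcon
  have hK : 0 < K.card := by have := h.lt; omega
  obtain ⟨x, hx⟩ := card_pos.mp hK
  have h1 : nb G x ∩ (X ∪ D) ⊆ (X ∪ D) \ K := by
    intro v hv
    obtain ⟨hv1, hv2⟩ := mem_inter.mp hv
    exact mem_sdiff.mpr ⟨hv2, fun hvK => hcon x hx v hvK ((mem_nb G).mp hv1)⟩
  have h2 := card_le_card h1
  rw [card_sdiff_of_subset (h.sub.trans subset_union_left), h.union_card] at h2
  have h3 := h.many x hx
  have h4 := h.lt
  have h5 := h.K_le
  omega

/-- Three members of `K`. -/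
theorem Bad.triple (h : Bad G k s X D K) {x y z : V} (hx : x ∈ K) (hy : y ∈ K) (hz : z ∈ K) :
    3 * (k + s) ≤ k + D.card + ((nb G x ∩ nb G y) ∩ (X ∪ D)).card +
      ((nb G x ∩ nb G z) ∩ (X ∪ D)).card + ((nb G y ∩ nb G z) ∩ (X ∪ D)).card := by
  have h1 := card_union_add_card_inter (nb G x ∩ (X ∪ D)) (nb G y ∩ (X ∪ D))
  have h2 := card_union_add_card_inter (nb G x ∩ (X ∪ D) ∪ nb G y ∩ (X ∪ D)) (nb G z ∩ (X ∪ D))
  have h3 : nb G x ∩ (X ∪ D) ∩ (nb G y ∩ (X ∪ D)) = (nb G x ∩ nb G y) ∩ (X ∪ D) := by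
    ext v
    simp only [mem_inter]
    tauto
  have h4 : ((nb G x ∩ (X ∪ D) ∪ nb G y ∩ (X ∪ D)) ∩ (nb G z ∩ (X ∪ D))).card ≤
      ((nb G x ∩ nb G z) ∩ (X ∪ D)).card + ((nb G y ∩ nb G z) ∩ (X ∪ D)).card := by
    refine le_trans (card_le_card ?_) (card_union_le _ _)
    intro v hv
    simp only [mem_inter, mem_union] at hv ⊢
    tauto
  have h5 : ((nb G x ∩ (X ∪ D) ∪ nb G y ∩ (X ∪ D)) ∪ (nb G z ∩ (X ∪ D))).card ≤ (X ∪ D).card :=
    card_le_card (union_subset (union_subset inter_subset_right inter_subset_right)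
      inter_subset_right)
  rw [h3] at h1
  rw [h.union_card] at h5
  have h6 := h.many x hx
  have h7 := h.many y hy
  have h8 := h.many z hz
  omega

end

end Pool.Agent.Helper17.DC
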