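import Pool.Agent.Helper46.DC.Defs

set_option autoImplicit false

/-! Bipartite `(2 k - 1)`-connected graphs of arbitrarily large minimum degree with a set `X` of `k` vertices for which
there are no `k` disjoint cycles each containing exactly one vertex of `X`: there are `L` disjoint blocks `K_{L,L}`, a set
`S` of `k - 1` vertices which are adjacent to one side of every block, and each vertex of `X` has exactly one neighbour in
every block. Every cycle with exactly one vertex of `X` contains a vertex of `S`. -/

namespace Pool.Agent.Helper17.DC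

open Finset
open Pool.Agent.DC (KConn DisjCycles)

/-- The vertices: `inl (i, m)` lies in the joined side of block `i`, `inr (inl (inl a))` in `X`, `inr (inl (inr b))` in
`S`, and `inr (inr (i, m))` in the other side of block `i`. -/
abbrev BarV (k L : ℕ) : Type := (Fin L × Fin L) ⊕ ((Fin k ⊕ Fin (k - 1)) ⊕ (Fin L × Fin L))

/-- Adjacency from the joined sides to the rest. -/
def barRel (k L : ℕ) (p : Fin L × Fin L) : (Fin k ⊕ Fin (k - 1)) ⊕ (Fin L × Fin L) → Prop
  | Sum.inl (Sum.inl a) => a.val = p.2.val
  | Sum.inl (Sum.inr _) => True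
  | Sum.inr q => p.1 = q.1

/-- The adjacency of the graph. -/
def barAdj (k L : ℕ) : BarV k L → BarV k L → Prop
  | Sum.inl p, Sum.inr q => barRel k L p q
  | Sum.inr q, Sum.inl p => barRel k L p q
  | Sum.inl _, Sum.inl _ => False
  | Sum.inr _, Sum.inr _ => False

/-- The graph. -/
def barG (k L : ℕ) : SimpleGraph (BarV k L) where
  Adj := barAdj k L
  symm := ⟨by
    rintro (p | q) (p' | q') h
    · exact h
    · exact h
    · exact h
    · exact h⟩
  loopless := ⟨by
    rintro (p | q) h
    · exact h
    · exact h⟩

theorem barG_colorable (k L : ℕ) : (barG k L).Colorable 2 :=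
  ⟨SimpleGraph.Coloring.mk (fun a => if a.isLeft then (0 : Fin 2) else 1) (by
    rintro (p | q) (p' | q') h
    · exact (h : False).elim
    · simp
    · simp
    · exact (h : False).elim)⟩

/-- The block of a vertex. -/
def blk (k L : ℕ) : BarV k L → Option (Fin L)
  | Sum.inl p => some p.1
  | Sum.inr (Sum.inr q) => some q.1
  | Sum.inr (Sum.inl _) => none

theorem blk_adj (k L : ℕ) (u v : BarV k L) (h : (barG k L).Adj u v) (i j : Fin L)
    (hu : blk k L u = some i) (hv : blk k L v = some j) : i = j := by
  rcases u with p | (q | q) <;> rcases v with p' | (q' | q')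
  · exact (h : False).elim
  · simp [blk] at hv
  · have h1 : p.1 = q'.1 := h
    simp only [blk, Option.some.injEq] at hu hv
    rw [← hu, ← hv, h1]
  · simp [blk] at hu
  · exact (h : False).elim
  · exact (h : False).elim
  · have h1 : p'.1 = q.1 := h
    simp only [blk, Option.some.injEq] at hu hv
    rw [← hu, ← hv, h1]
  · exact (h : False).elim
  · exact (h : False).elim

/-- Every vertex has at least `L` neighbours. -/
theorem barG_deg (k L : ℕ) (hL : k ≤ L) (v : BarV k L) (i₀ : Fin L) :
    L ≤ {w | (barG k L).Adj v w}.ncard := by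
  classical
  have key : ∀ f : Fin L → BarV k L, Function.Injective f → (∀ i, (barG k L).Adj v (f i)) →
      L ≤ {w | (barG k L).Adj v w}.ncard := by
    intro f hf h
    have h1 : ((univ.image f : Finset (BarV k L)) : Set (BarV k L)) ⊆
        {w | (barG k L).Adj v w} := by
      intro w hw
      obtain ⟨i, -, rfl⟩ := mem_image.mp (mem_coe.mp hw)
      exact h i
    have h2 := Set.ncard_le_ncard h1 (Set.toFinite _)
    rw [Set.ncard_coe_finset, card_image_of_injective _ hf, card_univ, Fintype.card_fin] at h2
    exact h2
  rcases v with p | ((a | b) | q)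
  · refine key (fun i => Sum.inr (Sum.inr (p.1, i))) ?_ ?_
    · intro i j h
      simpa using h
    · intro i
      exact (rfl : p.1 = p.1)
  · refine key (fun i => Sum.inl (i, ⟨a.val, by omega⟩)) ?_ ?_
    · intro i j h
      simpa using h
    · intro i
      exact (rfl : a.val = a.val)
  · refine key (fun i => Sum.inl (i, i₀)) ?_ ?_
    · intro i j h
      simpa using h
    · intro i
      exact True.intro
  · refine key (fun i => Sum.inl (q.1, i)) ?_ ?_
    · intro i j h
      simpa using h
    · intro i
      exact (rfl : q.1 = q.1)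

/-- The graph is `(2 k - 1)`-connected. -/
theorem barG_conn (k L : ℕ) (hk : 1 ≤ k) (hL : 2 * k ≤ L) : KConn (barG k L) (2 * k - 1) := by
  classical
  refine ⟨?_, fun Z hZ => ?_⟩
  · simp only [Fintype.card_sum, Fintype.card_prod, Fintype.card_fin]
    have : 1 ≤ L * L := Nat.mul_pos (by omega) (by omega)
    omega
  -- a family of `L` different vertices is not contained in `Z`
  have hfam : ∀ f : Fin L → BarV k L, Function.Injective f → ∃ i, f i ∉ Z := by
    intro f hf
    by_contra hcon
    push Not at hcon
    have h1 : (univ.image f : Finset (BarV k L)) ⊆ Z := by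
      intro w hw
      obtain ⟨i, -, rfl⟩ := mem_image.mp hw
      exact hcon i
    have h2 := card_le_card h1
    rw [card_image_of_injective _ hf, card_univ, Fintype.card_fin] at h2
    omega
  set H := (barG k L).induce {v | v ∉ Z} with hH
  have hadj : ∀ (u v : {v | v ∉ Z}), (barG k L).Adj u.1 v.1 → H.Reachable u v := by
    intro u v h
    exact SimpleGraph.Adj.reachable (show H.Adj u v from h)
  have hp : ∀ i : Fin L, ∃ m : Fin L, (Sum.inl (i, m) : BarV k L) ∉ Z := by
    intro i
    exact hfam (fun m => Sum.inl (i, m)) (fun m m' h => by simpa using h)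
  have hq : ∀ i : Fin L, ∃ m : Fin L, (Sum.inr (Sum.inr (i, m)) : BarV k L) ∉ Z := by
    intro i
    exact hfam (fun m => Sum.inr (Sum.inr (i, m))) (fun m m' h => by simpa using h)
  choose m hm using hp
  choose m' hm' using hq
  -- within a block
  have hin : ∀ (i j : Fin L) (h : (Sum.inl (i, j) : BarV k L) ∉ Z),
      H.Reachable ⟨Sum.inl (i, m i), hm i⟩ ⟨Sum.inl (i, j), h⟩ := by
    intro i j h
    refine (hadj ⟨Sum.inl (i, m i), hm i⟩ ⟨Sum.inr (Sum.inr (i, m' i)), hm' i⟩ ?_).trans
      (hadj _ _ ?_)
    · exact (rfl : i = i)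
    · exact (rfl : i = i)
  -- a block untouched by `Z`
  obtain ⟨i₀, hi₀⟩ : ∃ i : Fin L, ∀ j : Fin L, (Sum.inl (i, j) : BarV k L) ∉ Z := by
    by_contra hcon
    push Not at hcon
    choose f hf using hcon
    obtain ⟨i, hi⟩ := hfam (fun i => Sum.inl (i, f i)) (fun i i' h => by
      have h1 : (i, f i) = (i', f i') := Sum.inl_injective h
      exact (Prod.mk.inj h1).1)
    exact hi (hf i)
  -- the blocks are connected with each other
  have hbl : ∀ i : Fin L,
      H.Reachable ⟨Sum.inl (i₀, m i₀), hm i₀⟩ ⟨Sum.inl (i, m i), hm i⟩ := by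
    intro i
    by_cases hs : ∃ b : Fin (k - 1), (Sum.inr (Sum.inl (Sum.inr b)) : BarV k L) ∉ Z
    · obtain ⟨b, hb⟩ := hs
      exact (hadj ⟨_, hm i₀⟩ ⟨Sum.inr (Sum.inl (Sum.inr b)), hb⟩ True.intro).trans
        (hadj ⟨Sum.inr (Sum.inl (Sum.inr b)), hb⟩ ⟨_, hm i⟩ True.intro)
    · push Not at hs
      obtain ⟨a, ha1, ha2⟩ : ∃ a : Fin k, (Sum.inr (Sum.inl (Sum.inl a)) : BarV k L) ∉ Z ∧
          (Sum.inl (i, ⟨a.val, by omega⟩) : BarV k L) ∉ Z := by
        by_contra hcon
        push Not at hcon
        let f : Fin k ⊕ Fin (k - 1) → BarV k L := fun t =>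
          match t with
          | Sum.inl a => if (Sum.inr (Sum.inl (Sum.inl a)) : BarV k L) ∈ Z then
              Sum.inr (Sum.inl (Sum.inl a)) else Sum.inl (i, ⟨a.val, by omega⟩)
          | Sum.inr b => Sum.inr (Sum.inl (Sum.inr b))
        have hf1 : ∀ t, f t ∈ Z := by
          rintro (a | b)
          · simp only [f]
            split_ifs with h
            · exact h
            · exact hcon a h
          · exact hs b
        have hf2 : Function.Injective f := by
          rintro (a | b) (a' | b') h
          · simp only [f] at h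
            split_ifs at h with h1 h2 h2
            all_goals first
              | (simp at h; done)
              | (have h5 : a = a' := by simpa using h
                 rw [h5])
              | (have h5 : a.val = a'.val := by simpa using h
                 rw [Fin.ext h5])
          · simp only [f] at h
            split_ifs at h <;> simp at h
          · simp only [f] at h
            split_ifs at h <;> simp at h
          · simpa [f] using h
        have h1 : (univ.image f : Finset (BarV k L)) ⊆ Z := by
          intro w hw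
          obtain ⟨t, -, rfl⟩ := mem_image.mp hw
          exact hf1 t
        have h2 := card_le_card h1
        rw [card_image_of_injective _ hf2, card_univ, Fintype.card_sum, Fintype.card_fin,
          Fintype.card_fin] at h2
        omega
      have h1 := hin i₀ ⟨a.val, by omega⟩ (hi₀ _)
      have h2 := hin i ⟨a.val, by omega⟩ ha2
      refine h1.trans ((hadj _ ⟨Sum.inr (Sum.inl (Sum.inl a)), ha1⟩ ?_).trans
        ((hadj _ _ ?_).trans h2.symm))
      · exact (rfl : a.val = a.val)
      · exact (rfl : a.val = a.val)
  -- everything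
  have hall : ∀ v : {v | v ∉ Z}, H.Reachable ⟨Sum.inl (i₀, m i₀), hm i₀⟩ v := by
    rintro ⟨v, hv⟩
    rcases v with p | ((a | b) | q)
    · exact (hbl p.1).trans (hin p.1 p.2 hv)
    · obtain ⟨i, hi⟩ := hfam (fun i => Sum.inl (i, ⟨a.val, by omega⟩)) (fun i i' h => by
        simpa using h)
      exact (hbl i).trans ((hin i _ hi).trans (hadj _ _ (rfl : a.val = a.val)))
    · exact (hadj _ _ True.intro)
    · exact (hbl q.1).trans (hadj _ _ (rfl : q.1 = q.1))
  have : Nonempty {v | v ∉ Z} := ⟨⟨Sum.inl (i₀, m i₀), hm i₀⟩⟩
  exact ⟨fun u v => (hall u).symm.trans (hall v)⟩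

/-- A walk from block `i` to the vertex `a` of `X` without vertices of `S` and other vertices of `X` uses the edge from
block `i` to `a`. -/
theorem bar_bridge (k L : ℕ) (a : Fin k) (i : Fin L) (c : Fin L) (hc : c.val = a.val) :
    ∀ (u v : BarV k L) (p : (barG k L).Walk u v), v = Sum.inr (Sum.inl (Sum.inl a)) →
      blk k L u = some i →
      (∀ w ∈ p.support, (∃ b, w = Sum.inr (Sum.inl b)) → w = Sum.inr (Sum.inl (Sum.inl a))) →
      s(Sum.inl (i, c), Sum.inr (Sum.inl (Sum.inl a))) ∈ p.edges := by
  intro u v p
  induction p with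
  | nil =>
    intro hv hu _
    rw [hv] at hu
    simp [blk] at hu
  | @cons u v w h p ih =>
    intro hw hu hs
    rw [SimpleGraph.Walk.edges_cons, List.mem_cons]
    by_cases hv : v = Sum.inr (Sum.inl (Sum.inl a))
    · left
      subst hv
      rcases u with q | (q | q)
      · have h1 : a.val = q.2.val := h
        simp only [blk, Option.some.injEq] at hu
        have h2 : q = (i, c) := by
          refine Prod.ext hu (Fin.ext ?_)
          rw [hc, h1]
        rw [h2]
      · exact (h : False).elim
      · exact (h : False).elim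
    · right
      refine ih hw ?_ fun w hw => hs w (by
        rw [SimpleGraph.Walk.support_cons]
        exact List.mem_cons_of_mem _ hw)
      have hvs : v ∈ (SimpleGraph.Walk.cons h p).support := by
        rw [SimpleGraph.Walk.support_cons]
        exact List.mem_cons_of_mem _ p.start_mem_support
      rcases hvv : v with q | (q | q)
      · have h1 := blk_adj k L u v h i q.1 hu (by rw [hvv]; rfl)
        simp only [blk, Option.some.injEq]
        exact h1.symm
      · exact absurd (hs v hvs ⟨q, hvv⟩) hv
      · have h1 := blk_adj k L u v h i q.1 hu (by rw [hvv]; rfl)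
        simp only [blk, Option.some.injEq]
        exact h1.symm

/-- A cycle through the vertex `a` of `X` and no other vertex of `X` contains a vertex of `S`. -/
theorem bar_cycle (k L : ℕ) (a : Fin k)
    (C : (barG k L).Walk (Sum.inr (Sum.inl (Sum.inl a))) (Sum.inr (Sum.inl (Sum.inl a))))
    (hC : C.IsCycle)
    (hX : ∀ a' : Fin k, Sum.inr (Sum.inl (Sum.inl a')) ∈ C.support → a' = a) :
    ∃ b : Fin (k - 1), Sum.inr (Sum.inl (Sum.inr b)) ∈ C.support := by
  by_contra hcon
  push Not at hcon
  cases C with
  | nil => exact hC.ne_nil rfl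
  | @cons _ v _ h p =>
    rw [SimpleGraph.Walk.cons_isCycle_iff] at hC
    rcases v with q | q
    · have h1 : a.val = q.2.val := h
      refine hC.2 ?_
      have h2 := bar_bridge k L a q.1 q.2 h1.symm (Sum.inl q) _ p rfl rfl (by
        rintro w hw ⟨b, rfl⟩
        have hw' : Sum.inr (Sum.inl b) ∈ (SimpleGraph.Walk.cons h p).support := by
          rw [SimpleGraph.Walk.support_cons]
          exact List.mem_cons_of_mem _ hw
        rcases b with a' | b
        · rw [hX a' hw']
        · exact absurd hw' (hcon b))
      rw [Sym2.eq_swap]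
      exact h2
    · exact (h : False).elim

/-- The set `X`. -/
def barX (k L : ℕ) : Finset (BarV k L) :=
  (univ : Finset (Fin k)).map ⟨fun a => Sum.inr (Sum.inl (Sum.inl a)), fun a b h => by
    simpa using h⟩

theorem mem_barX (k L : ℕ) (x : BarV k L) :
    x ∈ barX k L ↔ ∃ a : Fin k, x = Sum.inr (Sum.inl (Sum.inl a)) := by
  simp only [barX, mem_map, mem_univ, true_and]
  exact ⟨fun ⟨a, h⟩ => ⟨a, h.symm⟩, fun ⟨a, h⟩ => ⟨a, h.symm⟩⟩

theorem bar_not_cycles (k L : ℕ) (hk : 1 ≤ k) : ¬ DisjCycles (barG k L) (barX k L) := by
  rintro ⟨C, h1, h2, h3⟩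
  have hx : ∀ a : Fin k, (Sum.inr (Sum.inl (Sum.inl a)) : BarV k L) ∈ barX k L := fun a =>
    (mem_barX k L _).mpr ⟨a, rfl⟩
  have key : ∀ a : Fin k, ∃ b : Fin (k - 1), Sum.inr (Sum.inl (Sum.inr b)) ∈
      (C (Sum.inr (Sum.inl (Sum.inl a)))).support := by
    intro a
    refine bar_cycle k L a _ (h1 _ (hx a)) fun a' ha' => ?_
    have h4 := h2 _ (hx a) _ ha' (hx a')
    simpa using h4
  choose f hf using key
  have hinj : Function.Injective f := by
    intro a a' h
    by_contra hne
    refine h3 _ (hx a) _ (hx a') (fun h' => hne (by simpa using h')) _ (hf a) ?_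
    rw [h]
    exact hf a'
  have h4 := Fintype.card_le_of_injective f hinj
  rw [Fintype.card_fin, Fintype.card_fin] at h4
  omega

end Pool.Agent.Helper17.DC
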