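import Pool.Agent.Helper46.DC.Defs

set_option autoImplicit false

/-! The complete bipartite graph with `2 k - 1` vertices on one side: `(2 k - 1)`-connected, triangle-free, and without
`k` disjoint cycles. -/

namespace Pool.Agent.Helper17.DC

open Finset
open Pool.Agent.DC (KConn DisjCycles)

/-- The complete bipartite graph on `Fin (2 k - 1)` and `Fin m`. -/
def bipG (k m : ℕ) : SimpleGraph (Fin (2 * k - 1) ⊕ Fin m) where
  Adj a b := a.isLeft ≠ b.isLeft
  symm := ⟨fun _ _ h => h.symm⟩
  loopless := ⟨fun _ h => h rfl⟩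

/-- A cycle uses two distinct left vertices. -/
theorem bipG_two (k m : ℕ) (x : Fin (2 * k - 1) ⊕ Fin m) (C : (bipG k m).Walk x x)
    (hC : C.IsCycle) :
    ∃ i j : Fin (2 * k - 1), i ≠ j ∧ Sum.inl i ∈ C.support ∧ Sum.inl j ∈ C.support := by
  have h3 := hC.three_le_length
  have inj := hC.getVert_injOn
  have inj' := hC.getVert_injOn'
  have a0 : (bipG k m).Adj (C.getVert 0) (C.getVert 1) := C.adj_getVert_succ (by omega)
  have a1 : (bipG k m).Adj (C.getVert 1) (C.getVert 2) := C.adj_getVert_succ (by omega)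
  have a2 : (bipG k m).Adj (C.getVert 2) (C.getVert 3) := C.adj_getVert_succ (by omega)
  have m0 : C.getVert 0 ∈ C.support := C.getVert_mem_support 0
  have m1 : C.getVert 1 ∈ C.support := C.getVert_mem_support 1
  have m2 : C.getVert 2 ∈ C.support := C.getVert_mem_support 2
  have m3 : C.getVert 3 ∈ C.support := C.getVert_mem_support 3
  have n13 : C.getVert 1 ≠ C.getVert 3 := by
    intro h
    have := inj (show (1 : ℕ) ∈ {i | 1 ≤ i ∧ i ≤ C.length} by simp; omega)
      (show (3 : ℕ) ∈ {i | 1 ≤ i ∧ i ≤ C.length} by simp; omega) h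
    omega
  have n02 : C.getVert 0 ≠ C.getVert 2 := by
    intro h
    have := inj' (show (0 : ℕ) ∈ {i | i ≤ C.length - 1} by simp)
      (show (2 : ℕ) ∈ {i | i ≤ C.length - 1} by simp; omega) h
    omega
  have key : ∀ a b : Fin (2 * k - 1) ⊕ Fin m, a.isLeft = true → b.isLeft = true → a ≠ b →
      a ∈ C.support → b ∈ C.support →
      ∃ i j : Fin (2 * k - 1), i ≠ j ∧ Sum.inl i ∈ C.support ∧ Sum.inl j ∈ C.support := by
    intro a b ha hb hab hma hmb
    obtain ⟨i, rfl⟩ := Sum.isLeft_iff.1 ha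
    obtain ⟨j, rfl⟩ := Sum.isLeft_iff.1 hb
    exact ⟨i, j, fun h => hab (by rw [h]), hma, hmb⟩
  have e0 : (C.getVert 0).isLeft ≠ (C.getVert 1).isLeft := a0
  have e1 : (C.getVert 1).isLeft ≠ (C.getVert 2).isLeft := a1
  have e2 : (C.getVert 2).isLeft ≠ (C.getVert 3).isLeft := a2
  by_cases h0 : (C.getVert 0).isLeft = true
  · have h2 : (C.getVert 2).isLeft = true := by
      revert e0 e1 h0
      cases (C.getVert 0).isLeft <;> cases (C.getVert 1).isLeft <;>
        cases (C.getVert 2).isLeft <;> simp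
    exact key _ _ h0 h2 n02 m0 m2
  · have h1 : (C.getVert 1).isLeft = true := by
      revert e0 h0
      cases (C.getVert 0).isLeft <;> cases (C.getVert 1).isLeft <;> simp
    have h3' : (C.getVert 3).isLeft = true := by
      revert e1 e2 h1
      cases (C.getVert 1).isLeft <;> cases (C.getVert 2).isLeft <;>
        cases (C.getVert 3).isLeft <;> simp
    exact key _ _ h1 h3' n13 m1 m3

/-- No three vertices are pairwise adjacent. -/
theorem bipG_triangle (k m : ℕ) (a b c : Fin (2 * k - 1) ⊕ Fin m) (h1 : (bipG k m).Adj a b)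
    (h2 : (bipG k m).Adj a c) (h3 : (bipG k m).Adj b c) : False := by
  have e1 : a.isLeft ≠ b.isLeft := h1
  have e2 : a.isLeft ≠ c.isLeft := h2
  have e3 : b.isLeft ≠ c.isLeft := h3
  revert e1 e2 e3
  cases a.isLeft <;> cases b.isLeft <;> cases c.isLeft <;> simp

theorem bip_lower (k m : ℕ) (hk : 1 ≤ k) (hm : 2 * k ≤ m) :
    KConn (bipG k m) (2 * k - 1) ∧
      ∀ X : Finset (Fin (2 * k - 1) ⊕ Fin m), X.card = k → ¬ DisjCycles (bipG k m) X := by
  classical
  refine ⟨⟨?_, ?_⟩, ?_⟩
  · simp only [Fintype.card_sum, Fintype.card_fin]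
    omega
  · intro S hS
    obtain ⟨c, hc⟩ : ∃ c : Fin (2 * k - 1), (Sum.inl c : Fin (2 * k - 1) ⊕ Fin m) ∉ S := by
      by_contra hcon
      push Not at hcon
      have h1 : (Finset.univ.image (Sum.inl : Fin (2 * k - 1) → Fin (2 * k - 1) ⊕ Fin m)) ⊆ S := by
        intro y hy
        obtain ⟨c, -, rfl⟩ := Finset.mem_image.1 hy
        exact hcon c
      have h2 := Finset.card_le_card h1
      rw [Finset.card_image_of_injective _ Sum.inl_injective, Finset.card_univ,
        Fintype.card_fin] at h2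
      omega
    obtain ⟨d, hd⟩ : ∃ d : Fin m, (Sum.inr d : Fin (2 * k - 1) ⊕ Fin m) ∉ S := by
      by_contra hcon
      push Not at hcon
      have h1 : (Finset.univ.image (Sum.inr : Fin m → Fin (2 * k - 1) ⊕ Fin m)) ⊆ S := by
        intro y hy
        obtain ⟨c, -, rfl⟩ := Finset.mem_image.1 hy
        exact hcon c
      have h2 := Finset.card_le_card h1
      rw [Finset.card_image_of_injective _ Sum.inr_injective, Finset.card_univ,
        Fintype.card_fin] at h2
      omega
    have hcd : ((bipG k m).induce {v | v ∉ S}).Adj ⟨Sum.inl c, hc⟩ ⟨Sum.inr d, hd⟩ := by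
      show (Sum.inl c : Fin (2 * k - 1) ⊕ Fin m).isLeft ≠
        (Sum.inr d : Fin (2 * k - 1) ⊕ Fin m).isLeft
      simp
    have hreach : ∀ v : {v | v ∉ S}, ((bipG k m).induce {v | v ∉ S}).Reachable
        ⟨Sum.inl c, hc⟩ v := by
      rintro ⟨v, hv⟩
      rcases v with i | j
      · refine hcd.reachable.trans (SimpleGraph.Adj.reachable ?_)
        show (Sum.inr d : Fin (2 * k - 1) ⊕ Fin m).isLeft ≠
          (Sum.inl i : Fin (2 * k - 1) ⊕ Fin m).isLeft
        simp
      · refine SimpleGraph.Adj.reachable ?_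
        show (Sum.inl c : Fin (2 * k - 1) ⊕ Fin m).isLeft ≠
          (Sum.inr j : Fin (2 * k - 1) ⊕ Fin m).isLeft
        simp
    have : Nonempty {v | v ∉ S} := ⟨⟨Sum.inl c, hc⟩⟩
    refine ⟨fun u v => ?_⟩
    exact (hreach u).symm.trans (hreach v)
  · rintro X hX ⟨C, hcyc, -, hdis⟩
    let F : Fin (2 * k - 1) ⊕ Fin m → Finset (Fin (2 * k - 1)) := fun x =>
      Finset.univ.filter fun i => Sum.inl i ∈ (C x).support
    have hF2 : ∀ x ∈ X, 2 ≤ (F x).card := by
      intro x hx
      obtain ⟨i, j, hij, hi, hj⟩ := bipG_two k m x (C x) (hcyc x hx)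
      exact Finset.one_lt_card.2 ⟨i, by simp [F, hi], j, by simp [F, hj], hij⟩
    have hdisj : ((X : Set (Fin (2 * k - 1) ⊕ Fin m))).PairwiseDisjoint F := by
      intro x hx y hy hxy
      rw [Function.onFun, Finset.disjoint_left]
      intro i hi hj
      simp only [F, Finset.mem_filter, Finset.mem_univ, true_and] at hi hj
      exact hdis x hx y hy hxy _ hi hj
    have h1 : ∑ x ∈ X, 2 ≤ ∑ x ∈ X, (F x).card := Finset.sum_le_sum hF2
    rw [← Finset.card_biUnion hdisj, Finset.sum_const, hX, smul_eq_mul] at h1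
    have h2 : (X.biUnion F).card ≤ 2 * k - 1 := by
      simpa using Finset.card_le_univ (X.biUnion F)
    omega

end Pool.Agent.Helper17.DC
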