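import Pool.Agent.Helper17.DC.Match

set_option autoImplicit false

/-!
# Adjacent vertices of `X` with few common neighbours: blocking with a maximum matching
-/

namespace Pool.Agent.Helper17.DC

open Finset
open Pool.Agent.DC (KConn DisjCycles)

/-- The cost. -/
theorem cost_eq (r : ℕ) : ∀ q : ℕ,
    2 * ∑ i ∈ range q, (q - max i r) = q * (q + 1) - r * (r + 1)
  | 0 => by simp
  | q + 1 => by
    rcases Nat.lt_or_ge q r with h | h
    · have h1 : ∑ i ∈ range (q + 1), (q + 1 - max i r) = 0 :=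
        sum_eq_zero fun i _ => by omega
      have h2 : (q + 1) * (q + 1 + 1) ≤ r * (r + 1) := Nat.mul_le_mul (by omega) (by omega)
      omega
    · have h1 : ∑ i ∈ range (q + 1), (q + 1 - max i r) =
          ∑ i ∈ range q, (q - max i r) + (q + 1) := by
        rw [sum_range_succ]
        have h2 : ∑ i ∈ range q, (q + 1 - max i r) = ∑ i ∈ range q, ((q - max i r) + 1) :=
          sum_congr rfl fun i hi => by
            have := mem_range.mp hi
            omega
        rw [h2, sum_add_distrib, sum_const, card_range, smul_eq_mul, mul_one]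
        omega
      have h3 := cost_eq r q
      have h4 : r * (r + 1) ≤ q * (q + 1) := Nat.mul_le_mul h (by omega)
      have h5 : (q + 1) * (q + 1 + 1) = q * (q + 1) + 2 * (q + 1) := by ring
      rw [h1, mul_add, h3, h5]
      omega

theorem cost_le (k q r n : ℕ) (h : q * (q + 1) ≤ 2 * k + r * (r + 1)) :
    ∑ i ∈ range n, (q - max i r) ≤ k := by
  have h1 : ∑ i ∈ range n, (q - max i r) ≤ ∑ i ∈ range q, (q - max i r) := by
    rcases Nat.lt_or_ge n q with h2 | h2
    · exact sum_le_sum_of_subset (range_subset_range.mpr h2.le)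
    · refine (sum_subset (range_subset_range.mpr h2) fun i _ hi => ?_).ge
      rw [mem_range] at hi
      omega
  have h3 := cost_eq r q
  omega

variable {V : Type} [Fintype V] [DecidableEq V] (G : SimpleGraph V) [DecidableRel G.Adj]

/-- A set `R` such that all bad pairs avoiding `R` have fewer than `r` vertices of `X` outside `K`. -/
theorem block (k s q r : ℕ) (hsq : 3 * (s + q) ≤ k)
    (hcost : q * (q + 1) ≤ 2 * k + r * (r + 1)) (hG : KConn G (2 * k + s)) (X : Finset V)
    (hXk : X.card = k)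
    (hcom : ∀ x ∈ X, ∀ y ∈ X, G.Adj x y → (nb G x ∩ nb G y).card ≤ 2 * s + q) :
    ∃ R : Finset V, R ⊆ Xᶜ ∧ R.card = k ∧
      ∀ D K : Finset V, Disjoint D R → Bad G k s X D K → (X \ K).card < r := by
  classical
  have hV : 2 * k + s < Fintype.card V := hG.1
  have hXc : (Xᶜ).card = Fintype.card V - k := by rw [card_compl, hXk]
  obtain ⟨M, hM, hmax⟩ := exists_max G X
  let e : Fin M.card ≃ M := M.equivFin.symm
  -- the common neighbours outside `X`
  let com : Fin M.card → Finset V := fun i =>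
    (nb G (e i : V × V).1 ∩ nb G (e i : V × V).2) \ X
  have hex : ∀ i : Fin M.card, ∃ C : Finset V, C ⊆ com i ∧
      C.card ≤ q - max (i : ℕ) r ∧ (C = com i ∨ q - max (i : ℕ) r ≤ C.card) := by
    intro i
    rcases Nat.lt_or_ge (com i).card (q - max (i : ℕ) r) with h | h
    · exact ⟨com i, Subset.rfl, h.le, Or.inl rfl⟩
    · obtain ⟨C, hC1, hC2⟩ := exists_subset_card_eq h
      exact ⟨C, hC1, hC2.le, Or.inr hC2.ge⟩
  choose C hC1 hC2 hC3 using hex
  set R₀ : Finset V := univ.biUnion C with hR₀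
  have hR₀k : R₀.card ≤ k := by
    refine card_biUnion_le.trans ((sum_le_sum fun i _ => hC2 i).trans ?_)
    rw [Fin.sum_univ_eq_sum_range (fun i => q - max i r) M.card]
    exact cost_le k q r M.card hcost
  have hR₀X : R₀ ⊆ Xᶜ := by
    intro v hv
    obtain ⟨i, -, hv⟩ := mem_biUnion.mp hv
    rw [mem_compl]
    exact (mem_sdiff.mp (hC1 i hv)).2
  obtain ⟨R, hR1, hR2, hR3⟩ := exists_subsuperset_card_eq (s := R₀) (t := Xᶜ) (n := k) hR₀X hR₀k
    (by omega)
  refine ⟨R, hR2, hR3, fun D K hDR h => ?_⟩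
  by_contra hjr
  push Not at hjr
  have hKk := h.K_le
  have hlt := h.lt
  have hJ : (X \ K).card = k - K.card := by rw [card_sdiff_of_subset h.sub, hXk]
  obtain ⟨a, ha, b, hb, hab⟩ := h.edge
  have hjq : (X \ K).card < q := by
    have h1 := h.pair ha hb
    have h2 := hcom a (h.sub ha) b (h.sub hb) hab
    have h3 : ((nb G a ∩ nb G b) ∩ (X ∪ D)).card ≤ (nb G a ∩ nb G b).card :=
      card_le_card inter_subset_left
    omega
  -- an edge `e i` in `K` with `i ≤ j`
  have hedge : ∃ i : Fin M.card, (i : ℕ) ≤ (X \ K).card ∧ (e i : V × V).1 ∈ K ∧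
      (e i : V × V).2 ∈ K := by
    rcases Nat.lt_or_ge (X \ K).card M.card with hj | hj
    · by_contra hcon
      push Not at hcon
      have hex : ∀ i : Fin ((X \ K).card + 1), ∃ v ∈ X \ K,
          (e (i.castLE hj) : V × V).1 = v ∨ (e (i.castLE hj) : V × V).2 = v := by
        intro i
        have h1 := hM.mem _ (e (i.castLE hj)).2
        have h2 := hcon (i.castLE hj) (by
          rw [Fin.val_castLE]
          have := i.2
          omega)
        by_cases h3 : (e (i.castLE hj) : V × V).1 ∈ K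
        · exact ⟨_, mem_sdiff.mpr ⟨h1.2.1, h2 h3⟩, Or.inr rfl⟩
        · exact ⟨_, mem_sdiff.mpr ⟨h1.1, h3⟩, Or.inl rfl⟩
      choose f hf1 hf2 using hex
      have hinj : Set.InjOn f ((univ : Finset (Fin ((X \ K).card + 1))) : Set _) := by
        intro i _ i' _ hii
        by_contra hne
        have hne' : (e (i.castLE hj) : V × V) ≠ e (i'.castLE hj) := by
          intro h4
          have h5 := e.injective (Subtype.ext h4)
          exact hne (Fin.castLE_injective hj h5)
        have h4 := hM.dis _ (e (i.castLE hj)).2 _ (e (i'.castLE hj)).2 hne'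
        rcases hf2 i with h5 | h5 <;> rcases hf2 i' with h6 | h6
        · exact h4.1 (h5.trans (hii.trans h6.symm))
        · exact h4.2.1 (h5.trans (hii.trans h6.symm))
        · exact h4.2.2.1 (h5.trans (hii.trans h6.symm))
        · exact h4.2.2.2 (h5.trans (hii.trans h6.symm))
      have h7 := card_le_card_of_injOn f (fun i _ => hf1 i) hinj
      rw [card_univ, Fintype.card_fin] at h7
      omega
    · obtain ⟨p, hp, hp1, hp2⟩ := h.exists_matching_edge hM hmax (by omega)
      refine ⟨e.symm ⟨p, hp⟩, ?_, ?_, ?_⟩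
      · have := (e.symm ⟨p, hp⟩).2
        omega
      · rw [Equiv.apply_symm_apply]
        exact hp1
      · rw [Equiv.apply_symm_apply]
        exact hp2
  obtain ⟨i, hij, hx, hy⟩ := hedge
  have hadj : G.Adj (e i : V × V).1 (e i : V × V).2 := (hM.mem _ (e i).2).2.2
  have hCR : ∀ v ∈ C i, v ∈ R := fun v hv => hR1 (mem_biUnion.mpr ⟨i, mem_univ _, hv⟩)
  have h1 := h.pair hx hy
  have hcxy := hcom _ (h.sub hx) _ (h.sub hy) hadj
  rcases hC3 i with h2 | h2
  · -- all common neighbours outside `X` are in `R`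
    have h3 : (nb G (e i : V × V).1 ∩ nb G (e i : V × V).2) ∩ (X ∪ D) ⊆ X \ K := by
      intro v hv
      obtain ⟨hv1, hv2⟩ := mem_inter.mp hv
      have hvX : v ∈ X := by
        by_contra hvX
        have hvD := (mem_union.mp hv2).resolve_left hvX
        have hvC : v ∈ C i := by
          rw [h2]
          exact mem_sdiff.mpr ⟨hv1, hvX⟩
        exact disjoint_left.mp hDR hvD (hCR v hvC)
      refine mem_sdiff.mpr ⟨hvX, fun hvK => ?_⟩
      obtain ⟨hv3, hv4⟩ := mem_inter.mp hv1
      rw [mem_nb] at hv3 hv4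
      have t1 := h.triple hx hy hvK
      have t2 : ∀ x ∈ K, ∀ y ∈ K, G.Adj x y →
          ((nb G x ∩ nb G y) ∩ (X ∪ D)).card ≤ 2 * s + q := fun x hx y hy hxy =>
        (card_le_card inter_subset_left).trans (hcom x (h.sub hx) y (h.sub hy) hxy)
      have t3 := t2 _ hx _ hy hadj
      have t4 := t2 _ hx _ hvK hv3
      have t5 := t2 _ hy _ hvK hv4
      omega
    have h4 := card_le_card h3
    omega
  · have h3 : (nb G (e i : V × V).1 ∩ nb G (e i : V × V).2) ∩ (X ∪ D) ⊆
        (nb G (e i : V × V).1 ∩ nb G (e i : V × V).2) \ C i := by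
      intro v hv
      obtain ⟨hv1, hv2⟩ := mem_inter.mp hv
      refine mem_sdiff.mpr ⟨hv1, fun hvC => ?_⟩
      rcases mem_union.mp hv2 with hv3 | hv3
      · exact (mem_sdiff.mp (hC1 i hvC)).2 hv3
      · exact disjoint_left.mp hDR hv3 (hCR v hvC)
    have h4 := card_le_card h3
    rw [card_sdiff_of_subset ((hC1 i).trans sdiff_subset)] at h4
    omega

/-- At most `2 s + q` common neighbours, `q (q + 1) ≤ 2 k`. -/
theorem few_sqrt (k s q : ℕ) (hk : 1 ≤ k) (hsq : 3 * (s + q) ≤ k)
    (hcost : q * (q + 1) ≤ 2 * k) (hG : KConn G (2 * k + s)) (X : Finset V) (hXk : X.card = k)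
    (hcom : ∀ x ∈ X, ∀ y ∈ X, G.Adj x y → (nb G x ∩ nb G y).card ≤ 2 * s + q) :
    DisjCycles G X := by
  obtain ⟨R, hR1, hR2, hR3⟩ := block G k s q 0 hsq (by omega) hG X hXk hcom
  exact cycles_of_no_bad G k s hk hG X R hXk hR1 hR2 fun D K hDR h =>
    absurd (hR3 D K hDR h) (Nat.not_lt_zero _)

/-- At most `2 s + q` common neighbours, `q ≤ 2 s + 1` and `q (q + 1) ≤ 2 k + (s + 1) (s + 2)`. -/
theorem few_third (k s q : ℕ) (hk : 1 ≤ k) (hsq : 3 * (s + q) ≤ k)
    (hq2 : q ≤ 2 * s + 1) (hcost : q * (q + 1) ≤ 2 * k + (s + 1) * (s + 2))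
    (hG : KConn G (2 * k + s)) (X : Finset V) (hXk : X.card = k)
    (hcom : ∀ x ∈ X, ∀ y ∈ X, G.Adj x y → (nb G x ∩ nb G y).card ≤ 2 * s + q) :
    DisjCycles G X := by
  classical
  have hV : 2 * k + s < Fintype.card V := hG.1
  have hXc : (Xᶜ).card = Fintype.card V - k := by rw [card_compl, hXk]
  by_contra hcon
  have hbad : ∀ R : Finset V, R ⊆ Xᶜ → R.card = k →
      ∃ D K : Finset V, Disjoint D R ∧ Bad G k s X D K := by
    intro R hR1 hR2
    by_contra hno
    push Not at hno
    exact hcon (cycles_of_no_bad G k s hk hG X R hXk hR1 hR2 fun D K hDR h => hno D K hDR h)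
  obtain ⟨R, hR1, hR2, hR3⟩ := block G k s q (s + 1) hsq hcost hG X hXk hcom
  obtain ⟨D, K, hDR, h⟩ := hbad R hR1 hR2
  have hj := hR3 D K hDR h
  have hKk := h.K_le
  have hlt := h.lt
  have hJ : (X \ K).card = k - K.card := by rw [card_sdiff_of_subset h.sub, hXk]
  have hDX : D ⊆ Xᶜ := by
    intro v hv
    rw [mem_compl]
    exact disjoint_left.mp h.disj hv
  obtain ⟨R', hDR', hR'1, hR'2⟩ := exists_subsuperset_card_eq (s := D) (t := Xᶜ) (n := k) hDX
    (by omega) (by omega)
  obtain ⟨D', K', hDR'', h'⟩ := hbad R' hR'1 hR'2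
  have hKk' := h'.K_le
  have hlt' := h'.lt
  have hJ' : (X \ K').card = k - K'.card := by rw [card_sdiff_of_subset h'.sub, hXk]
  have hDD : Disjoint D' D := disjoint_of_subset_right hDR' hDR''
  obtain ⟨a, ha, b, hb, hab⟩ := h'.edge
  have hjq : (X \ K').card < q := by
    have h1 := h'.pair ha hb
    have h2 := hcom a (h'.sub ha) b (h'.sub hb) hab
    have h3 : ((nb G a ∩ nb G b) ∩ (X ∪ D')).card ≤ (nb G a ∩ nb G b).card :=
      card_le_card inter_subset_left
    omega
  -- a vertex in both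
  have hKK : (K ∩ K').Nonempty := by
    rw [← card_pos]
    have h1 := card_union_add_card_inter K K'
    have h2 := card_le_card (union_subset h.sub h'.sub)
    omega
  obtain ⟨x, hx⟩ := hKK
  obtain ⟨hxK, hxK'⟩ := mem_inter.mp hx
  -- an edge in both
  have hxy : ∃ y ∈ K, y ∈ K' ∧ G.Adj x y := by
    by_contra hno
    push Not at hno
    have h1 := h'.deg hxK'
    have h2 : (K'.filter fun v => G.Adj x v) ⊆ X \ K := by
      intro v hv
      obtain ⟨hv1, hv2⟩ := mem_filter.mp hv
      exact mem_sdiff.mpr ⟨h'.sub hv1, fun hvK => hno v hvK hv1 hv2⟩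
    have h3 := card_le_card h2
    omega
  obtain ⟨y, hyK, hyK', hadj⟩ := hxy
  have hcxy := hcom x (h.sub hxK) y (h.sub hyK) hadj
  have h1 := h.pair hxK hyK
  have h2 := h'.pair hxK' hyK'
  have hsplit : ∀ E : Finset V, Disjoint E X → ((nb G x ∩ nb G y) ∩ (X ∪ E)).card =
      ((nb G x ∩ nb G y) ∩ X).card + ((nb G x ∩ nb G y) ∩ E).card := by
    intro E hE
    rw [inter_union_distrib_left, card_union_of_disjoint]
    exact disjoint_of_subset_left inter_subset_right
      (disjoint_of_subset_right inter_subset_right hE.symm)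
  rw [hsplit D h.disj] at h1
  rw [hsplit D' h'.disj] at h2
  have h3 : ((nb G x ∩ nb G y) ∩ X).card + ((nb G x ∩ nb G y) ∩ D).card +
      ((nb G x ∩ nb G y) ∩ D').card ≤ (nb G x ∩ nb G y).card := by
    rw [← hsplit D h.disj, ← card_union_of_disjoint]
    · exact card_le_card (union_subset inter_subset_left inter_subset_left)
    · refine disjoint_of_subset_left inter_subset_right
        (disjoint_of_subset_right inter_subset_right ?_)
      rw [disjoint_union_left]
      exact ⟨h'.disj.symm, hDD.symm⟩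
  have h4 : (nb G x ∩ nb G y) ∩ X ⊆ X \ K := by
    intro v hv
    obtain ⟨hv1, hvX⟩ := mem_inter.mp hv
    refine mem_sdiff.mpr ⟨hvX, fun hvK => ?_⟩
    obtain ⟨hv3, hv4⟩ := mem_inter.mp hv1
    rw [mem_nb] at hv3 hv4
    have t1 := h.triple hxK hyK hvK
    have t2 : ∀ x ∈ K, ∀ y ∈ K, G.Adj x y →
        ((nb G x ∩ nb G y) ∩ (X ∪ D)).card ≤ 2 * s + q := fun x hx y hy hxy =>
      (card_le_card inter_subset_left).trans (hcom x (h.sub hx) y (h.sub hy) hxy)
    have t3 := t2 _ hxK _ hyK hadj
    have t4 := t2 _ hxK _ hvK hv3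
    have t5 := t2 _ hyK _ hvK hv4
    omega
  have h5 := card_le_card h4
  omega

end Pool.Agent.Helper17.DC
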