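import Pool.Agent.Helper17.DC.Bad

set_option autoImplicit false

/-!
# Sets `X` without large cliques that have a common neighbour
-/

namespace Pool.Agent.Helper17.DC

open Finset
open Pool.Agent.DC (KConn DisjCycles)

variable {V : Type} [Fintype V] [DecidableEq V] (G : SimpleGraph V) [DecidableRel G.Adj]

/-- `(w - 1) (k - 1) ≤ w s`, and any `w + 1` pairwise adjacent vertices of `X` have at most
`(w + 1) s - (w - 1) (k - 1)` common neighbours. -/
theorem clique_main (k s w : ℕ) (hk : 1 ≤ k) (hw : 1 ≤ w) (hws : (w - 1) * (k - 1) ≤ w * s)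
    (hG : KConn G (2 * k + s)) (X : Finset V) (hXk : X.card = k)
    (hcl : ∀ Q : Finset V, Q ⊆ X → (∀ x ∈ Q, ∀ y ∈ Q, x ≠ y → G.Adj x y) → Q.card = w + 1 →
      (univ.filter fun v => ∀ x ∈ Q, G.Adj x v).card + (w - 1) * (k - 1) ≤ (w + 1) * s) :
    DisjCycles G X := by
  classical
  have hV : 2 * k + s < Fintype.card V := hG.1
  have hXc : (Xᶜ).card = Fintype.card V - k := by rw [card_compl, hXk]
  obtain ⟨R, hR2, hR3⟩ := exists_subset_card_eq (s := Xᶜ) (n := k) (by omega)
  refine cycles_of_no_bad G k s hk hG X R hXk hR2 hR3 fun D K hDR h => ?_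
  have hKk := h.K_le
  have hlt := h.lt
  -- a maximum clique of `K`
  set cl : Finset V → Prop := fun Q => ∀ x ∈ Q, ∀ y ∈ Q, x ≠ y → G.Adj x y with hcld
  have hne : (K.powerset.filter cl).Nonempty := by
    refine ⟨∅, mem_filter.mpr ⟨empty_mem_powerset K, ?_⟩⟩
    intro x hx
    exact absurd hx (notMem_empty x)
  obtain ⟨Q, hQ, hmax⟩ := exists_max_image (K.powerset.filter cl) card hne
  obtain ⟨hQK, hQcl⟩ := mem_filter.mp hQ
  rw [mem_powerset] at hQK
  have hQX : Q ⊆ X := hQK.trans h.sub
  have hQ1 : 1 ≤ Q.card := by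
    obtain ⟨x, hx⟩ := card_pos.mp (show 0 < K.card by omega)
    have h1 := hmax {x} (mem_filter.mpr ⟨mem_powerset.mpr (singleton_subset_iff.mpr hx), by
      intro a ha b hb hab
      rw [mem_singleton] at ha hb
      exact absurd (ha.trans hb.symm) hab⟩)
    rwa [card_singleton] at h1
  -- vertices of `K` miss a vertex of `Q`
  have hKmiss : ∀ v ∈ K, (Q.filter fun x => G.Adj x v).card ≤ Q.card - 1 := by
    intro v hv
    by_contra hcon
    push Not at hcon
    have h1 : Q.filter (fun x => G.Adj x v) = Q :=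
      eq_of_subset_of_card_le (filter_subset _ _) (by omega)
    have h2 : ∀ x ∈ Q, G.Adj x v := by
      intro x hx
      rw [← h1] at hx
      exact (mem_filter.mp hx).2
    have hvQ : v ∉ Q := fun hvQ => (h2 v hvQ).ne rfl
    have h3 := hmax (insert v Q) (mem_filter.mpr ⟨mem_powerset.mpr
      (insert_subset_iff.mpr ⟨hv, hQK⟩), by
        intro a ha b hb hab
        rcases mem_insert.mp ha with ha' | ha'
        · rcases mem_insert.mp hb with hb' | hb'
          · exact absurd (ha'.trans hb'.symm) hab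
          · rw [ha']
            exact (h2 b hb').symm
        · rcases mem_insert.mp hb with hb' | hb'
          · rw [hb']
            exact h2 a ha'
          · exact hQcl a ha' b hb' hab⟩)
    rw [card_insert_of_notMem hvQ] at h3
    omega
  -- double counting
  have hsum : ∀ Q' : Finset V, Q' ⊆ K → Q'.card * (k + s) ≤
      ∑ v ∈ X ∪ D, (Q'.filter fun x => G.Adj x v).card := by
    intro Q' hQ'K
    calc Q'.card * (k + s) = ∑ _x ∈ Q', (k + s) := by rw [sum_const, smul_eq_mul]
      _ ≤ ∑ x ∈ Q', (nb G x ∩ (X ∪ D)).card := sum_le_sum fun x hx => h.many x (hQ'K hx)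
      _ = ∑ x ∈ Q', ∑ v ∈ X ∪ D, if G.Adj x v then 1 else 0 := by
          refine sum_congr rfl fun x _ => ?_
          rw [← sum_filter, sum_const, smul_eq_mul, mul_one]
          congr 1
          ext v
          simp [nb, and_comm]
      _ = ∑ v ∈ X ∪ D, ∑ x ∈ Q', if G.Adj x v then 1 else 0 := sum_comm
      _ = ∑ v ∈ X ∪ D, (Q'.filter fun x => G.Adj x v).card := by
          refine sum_congr rfl fun v _ => ?_
          rw [← sum_filter, sum_const, smul_eq_mul, mul_one]
  have hsplit : X ∪ D = K ∪ ((X ∪ D) \ K) := by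
    rw [union_sdiff_of_subset (h.sub.trans subset_union_left)]
  have hcardY : ((X ∪ D) \ K).card = k + D.card - K.card := by
    rw [card_sdiff_of_subset (h.sub.trans subset_union_left), h.union_card]
  by_cases hQw : Q.card ≤ w
  · -- `|Q| ≤ w`
    have h1 : ∑ v ∈ X ∪ D, (Q.filter fun x => G.Adj x v).card ≤
        K.card * (Q.card - 1) + (k + D.card - K.card) * Q.card := by
      rw [hsplit, sum_union disjoint_sdiff]
      refine Nat.add_le_add ?_ ?_
      · exact (sum_le_sum fun v hv => hKmiss v hv).trans (by rw [sum_const, smul_eq_mul])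
      · refine (sum_le_sum fun v _ => card_filter_le Q fun x => G.Adj x v).trans ?_
        rw [sum_const, smul_eq_mul, hcardY]
    obtain ⟨q, hq⟩ : ∃ q, Q.card = q + 1 := ⟨Q.card - 1, by omega⟩
    obtain ⟨w', rfl⟩ : ∃ w', w = w' + 1 := ⟨w - 1, by omega⟩
    obtain ⟨k', rfl⟩ : ∃ k', k = k' + 1 := ⟨k - 1, by omega⟩
    obtain ⟨u, hu⟩ : ∃ u, k' + 1 + D.card = K.card + u := ⟨k' + 1 + D.card - K.card, by omega⟩
    have hsum := hsum Q hQK
    rw [hq] at h1 hsum hQw
    simp only [Nat.add_sub_cancel] at h1 hws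
    have hu2 : k' + 1 + D.card - K.card = u := by omega
    rw [hu2] at h1
    have h2 := hsum.trans h1
    -- `(q+1)(k'+1+s) ≤ |K| q + u (q+1)`, so `(q+1) s ≤ (q+1) |D| - |K|`
    have h3 : (q + 1) * s + K.card ≤ (q + 1) * D.card := by nlinarith
    have h4 : (q + 1) * s + q + 1 ≤ q * K.card := by nlinarith
    have h5 : (q + 1) * s + 1 ≤ q * k' := by nlinarith
    -- but `(w'+1) s ≥ w' k'` and `q ≤ w'`
    have h6 : q ≤ w' := by omega
    have h7 : (w' + 1) * ((q + 1) * s + 1) ≤ (w' + 1) * (q * k') := Nat.mul_le_mul_left _ h5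
    have h8 : (q + 1) * (w' * k') ≤ (q + 1) * ((w' + 1) * s) := Nat.mul_le_mul_left _ hws
    have h9 : q * k' ≤ w' * k' := Nat.mul_le_mul_right _ h6
    nlinarith
  · -- there is a clique with `w + 1` vertices
    push Not at hQw
    obtain ⟨Q', hQ'Q, hQ'c⟩ := exists_subset_card_eq (s := Q) (n := w + 1) (by omega)
    have hcom := hcl Q' (hQ'Q.trans hQX) (fun x hx y hy hxy =>
        hQcl x (hQ'Q hx) y (hQ'Q hy) hxy) hQ'c
    set T : Finset V := univ.filter fun v => ∀ x ∈ Q', G.Adj x v with hT
    have hmiss : ∀ v ∈ X ∪ D, (Q'.filter fun x => G.Adj x v).card ≤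
        w + if v ∈ T then 1 else 0 := by
      intro v _
      by_cases hv : v ∈ T
      · rw [if_pos hv, ← hQ'c]
        exact card_filter_le _ _
      · rw [if_neg hv, add_zero]
        have h0 : ∃ u ∈ Q', ¬ G.Adj u v := by
          by_contra hcon
          push Not at hcon
          exact hv (mem_filter.mpr ⟨mem_univ _, hcon⟩)
        obtain ⟨u, hu, huv⟩ := h0
        have h1 : (Q'.filter fun x => G.Adj x v) ⊆ Q'.erase u := by
          intro x hx
          obtain ⟨hx1, hx2⟩ := mem_filter.mp hx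
          refine mem_erase.mpr ⟨?_, hx1⟩
          rintro rfl
          exact huv hx2
        have h2 := card_le_card h1
        rw [card_erase_of_mem hu, hQ'c] at h2
        exact h2
    have h1 : ∑ v ∈ X ∪ D, (Q'.filter fun x => G.Adj x v).card ≤ (k + D.card) * w + T.card := by
      refine (sum_le_sum fun v hv => hmiss v hv).trans ?_
      rw [sum_add_distrib, sum_const, smul_eq_mul, h.union_card, ← sum_filter, sum_const,
        smul_eq_mul, mul_one]
      refine Nat.add_le_add_left (card_le_card ?_) _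
      intro v hv
      exact (mem_filter.mp hv).2
    have hsum := hsum Q' (hQ'Q.trans hQK)
    rw [hQ'c] at hsum
    obtain ⟨w', rfl⟩ : ∃ w', w = w' + 1 := ⟨w - 1, by omega⟩
    obtain ⟨k', rfl⟩ : ∃ k', k = k' + 1 := ⟨k - 1, by omega⟩
    simp only [Nat.add_sub_cancel] at hws hcom
    have h2 := hsum.trans h1
    have h3 : D.card ≤ k' := by omega
    have h4 : (w' + 1) * D.card ≤ (w' + 1) * k' := Nat.mul_le_mul_left _ h3
    nlinarith

end Pool.Agent.Helper17.DC
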