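import Mathlib

set_option autoImplicit false

/-!
# A kernel for vertex covers of size at most `p`

Every finite set `E` of edges has a subset `M` with at most `p (p + 1) + 1` edges such that every set of at most `p`
vertices which covers `M` covers `E`.
-/

namespace Pool.Agent.Helper17.DC

open Finset

/-- `J` covers all edges in `M`. -/
def Cov {V : Type} (J : Finset V) (M : Finset (Sym2 V)) : Prop := ∀ e ∈ M, ∃ v ∈ J, v ∈ e

theorem kernel {V : Type} [DecidableEq V] (E : Finset (Sym2 V)) (p : ℕ) :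
    ∃ M ⊆ E, M.card ≤ p * (p + 1) + 1 ∧ ∀ J : Finset V, J.card ≤ p → Cov J M → Cov J E := by
  classical
  set P : Finset (Sym2 V) → Prop := fun M => ∀ J : Finset V, J.card ≤ p → Cov J M → Cov J E
    with hP
  have hne : (E.powerset.filter P).Nonempty :=
    ⟨E, mem_filter.mpr ⟨mem_powerset_self E, fun J _ h => h⟩⟩
  obtain ⟨M, hM, hmin⟩ := exists_min_image (E.powerset.filter P) card hne
  obtain ⟨hME, hMP⟩ := mem_filter.mp hM
  rw [mem_powerset] at hME
  refine ⟨M, hME, ?_, hMP⟩
  -- every edge `e` of `M` is missed by a set `J` which covers the others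
  have key : ∀ e ∈ M, ∃ J : Finset V, J.card ≤ p ∧ Cov J (M.erase e) ∧ ∀ v ∈ J, v ∉ e := by
    intro e he
    have h1 : M.erase e ∉ E.powerset.filter P := by
      intro h
      have h2 := hmin _ h
      have h3 := card_erase_lt_of_mem he
      omega
    have h2 : ¬ P (M.erase e) := fun h =>
      h1 (mem_filter.mpr ⟨mem_powerset.mpr ((erase_subset _ _).trans hME), h⟩)
    rw [hP] at h2
    push Not at h2
    obtain ⟨J, hJ, hJM, hJE⟩ := h2
    refine ⟨J, hJ, hJM, ?_⟩
    intro v hv hve
    refine hJE (hMP J hJ ?_)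
    intro e' he'
    by_cases hee : e' = e
    · rw [hee]
      exact ⟨v, hv, hve⟩
    · exact hJM e' (mem_erase.mpr ⟨hee, he'⟩)
  -- degrees
  have hdeg : ∀ u : V, (M.filter fun e => u ∈ e).card ≤ p + 1 := by
    intro u
    by_cases hu : (M.filter fun e => u ∈ e) = ∅
    · rw [hu, card_empty]
      exact Nat.zero_le _
    obtain ⟨e, he⟩ := nonempty_iff_ne_empty.mpr hu
    obtain ⟨heM, hue⟩ := mem_filter.mp he
    obtain ⟨J, hJ, hJM, hJe⟩ := key e heM
    have huJ : u ∉ J := fun h => hJe u h hue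
    have hsub : (M.filter fun e => u ∈ e).erase e ⊆ J.image fun v => s(u, v) := by
      intro e' he'
      obtain ⟨hne', he'⟩ := mem_erase.mp he'
      obtain ⟨he'M, hue'⟩ := mem_filter.mp he'
      obtain ⟨v, hv, hve'⟩ := hJM e' (mem_erase.mpr ⟨hne', he'M⟩)
      have huv : u ≠ v := fun h => huJ (h ▸ hv)
      exact mem_image.mpr ⟨v, hv, ((Sym2.mem_and_mem_iff huv).mp ⟨hue', hve'⟩).symm⟩
    have h1 := (card_le_card hsub).trans card_image_le
    rw [card_erase_of_mem he] at h1
    omega
  by_cases hM0 : M = ∅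
  · rw [hM0, card_empty]
    exact Nat.zero_le _
  obtain ⟨e, he⟩ := nonempty_iff_ne_empty.mpr hM0
  obtain ⟨J, hJ, hJM, -⟩ := key e he
  have hsub : M.erase e ⊆ J.biUnion fun u => M.filter fun e => u ∈ e := by
    intro e' he'
    obtain ⟨v, hv, hve'⟩ := hJM e' he'
    exact mem_biUnion.mpr ⟨v, hv, mem_filter.mpr ⟨(mem_erase.mp he').2, hve'⟩⟩
  have h1 : (M.erase e).card ≤ J.card * (p + 1) :=
    (card_le_card hsub).trans (card_biUnion_le_card_mul _ _ _ fun u _ => hdeg u)
  have h2 : J.card * (p + 1) ≤ p * (p + 1) := Nat.mul_le_mul_right _ hJ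
  rw [card_erase_of_mem he] at h1
  omega

end Pool.Agent.Helper17.DC
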