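import Pool.Agent.Helper17.DC.Bad
import Pool.Agent.Helper17.DC.Kernel

set_option autoImplicit false

/-!
# Adjacent vertices of `X` with few common neighbours
-/

namespace Pool.Agent.Helper17.DC

open Finset
open Pool.Agent.DC (KConn DisjCycles)

variable {V : Type} [Fintype V] [DecidableEq V] (G : SimpleGraph V) [DecidableRel G.Adj]

/-- At most `2 s + q` common neighbours, `q ^ 3 ≤ k` and `3 (s + q) ≤ k`. -/
theorem few_large (k s q : ℕ) (hk : 1 ≤ k) (hq : 1 ≤ q) (hqk : q ^ 3 ≤ k)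
    (hsq : 3 * (s + q) ≤ k) (hG : KConn G (2 * k + s)) (X : Finset V) (hXk : X.card = k)
    (hcom : ∀ x ∈ X, ∀ y ∈ X, G.Adj x y → (nb G x ∩ nb G y).card ≤ 2 * s + q) :
    DisjCycles G X := by
  classical
  have hV : 2 * k + s < Fintype.card V := hG.1
  have hXc : (Xᶜ).card = Fintype.card V - k := by rw [card_compl, hXk]
  -- the edges inside `X`
  set E : Finset (Sym2 V) := univ.filter fun e => e ∈ G.edgeSet ∧ ∀ v ∈ e, v ∈ X with hE
  obtain ⟨M, hME, hMc, hM⟩ := kernel E (q - 1)
  -- the common neighbours outside `X` of the ends of an edge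
  set com : Sym2 V → Finset V := fun e => univ.filter fun v => v ∉ X ∧ ∀ u ∈ e, G.Adj u v with hcomd
  have hcard : ∀ e ∈ E, (com e).card ≤ 2 * s + q := by
    intro e
    induction e using Sym2.ind with
    | _ x y =>
      intro he
      obtain ⟨-, he1, he2⟩ := mem_filter.mp he
      refine le_trans (card_le_card ?_) (hcom x (he2 x (Sym2.mem_mk_left x y)) y
        (he2 y (Sym2.mem_mk_right x y)) he1)
      intro v hv
      obtain ⟨-, -, hv⟩ := mem_filter.mp hv
      exact mem_inter.mpr ⟨(mem_nb G).mpr (hv x (Sym2.mem_mk_left x y)),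
        (mem_nb G).mpr (hv y (Sym2.mem_mk_right x y))⟩
  have hex : ∀ e : Sym2 V, ∃ C : Finset V, e ∈ E → C ⊆ com e ∧ C.card ≤ q ∧
      (com e \ C).card ≤ 2 * s := by
    intro e
    by_cases he : e ∈ E
    swap
    · exact ⟨∅, fun h => absurd h he⟩
    have h1 := hcard e he
    by_cases h2 : (com e).card ≤ q
    · refine ⟨com e, fun _ => ⟨Subset.rfl, h2, ?_⟩⟩
      simp
    · obtain ⟨C, hC1, hC2⟩ := exists_subset_card_eq (s := com e) (n := q) (by omega)
      refine ⟨C, fun _ => ⟨hC1, hC2.le, ?_⟩⟩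
      rw [card_sdiff_of_subset hC1]
      omega
  choose C hC using hex
  set R₀ := M.biUnion C with hR₀
  have hR₀k : R₀.card ≤ k := by
    have h1 : R₀.card ≤ M.card * q := card_biUnion_le_card_mul _ _ _ fun e he => (hC e (hME he)).2.1
    have h2 : M.card * q ≤ ((q - 1) * (q - 1 + 1) + 1) * q := Nat.mul_le_mul_right _ hMc
    obtain ⟨p, rfl⟩ : ∃ p, q = p + 1 := ⟨q - 1, by omega⟩
    rw [Nat.add_sub_cancel] at h2
    have h3 : (p * (p + 1) + 1) * (p + 1) ≤ (p + 1) ^ 3 := by
      nlinarith [Nat.zero_le p, Nat.zero_le (p * p)]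
    omega
  have hR₀X : R₀ ⊆ Xᶜ := by
    intro v hv
    obtain ⟨e, he, hv⟩ := mem_biUnion.mp hv
    rw [mem_compl]
    exact (mem_filter.mp ((hC e (hME he)).1 hv)).2.1
  obtain ⟨R, hR1, hR2, hR3⟩ := exists_subsuperset_card_eq (s := R₀) (t := Xᶜ) (n := k) hR₀X hR₀k
    (by omega)
  refine cycles_of_no_bad G k s hk hG X R hXk hR2 hR3 fun D K hDR h => ?_
  have hKk := h.K_le
  have hlt := h.lt
  have hpair : ∀ x ∈ K, ∀ y ∈ K, G.Adj x y →
      ((nb G x ∩ nb G y) ∩ (X ∪ D)).card ≤ 2 * s + q := fun x hx y hy hxy =>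
    (card_le_card inter_subset_left).trans (hcom x (h.sub hx) y (h.sub hy) hxy)
  obtain ⟨a, ha, b, hb, hab⟩ := h.edge
  have hD : k ≤ D.card + q := by
    have h1 := h.pair ha hb
    have h2 := hpair a ha b hb hab
    omega
  -- no triangle in `K`
  have htri : ∀ x ∈ K, ∀ y ∈ K, ∀ z ∈ K, G.Adj x y → G.Adj x z → G.Adj y z → False := by
    intro x hx y hy z hz hxy hxz hyz
    have h1 := h.triple hx hy hz
    have h2 := hpair x hx y hy hxy
    have h3 := hpair x hx z hz hxz
    have h4 := hpair y hy z hz hyz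
    omega
  have hJ : (X \ K).card = k - K.card := by rw [card_sdiff_of_subset h.sub, hXk]
  -- an edge of `M` inside `K`
  have hnc : ¬ Cov (X \ K) M := by
    intro hcov
    have h1 := hM (X \ K) (by omega) hcov
    obtain ⟨v, hv, hve⟩ := h1 s(a, b) (mem_filter.mpr ⟨mem_univ _, hab, by
      intro v hv
      rcases Sym2.mem_iff.mp hv with rfl | rfl
      · exact h.sub ha
      · exact h.sub hb⟩)
    have hvK := (mem_sdiff.mp hv).2
    rcases Sym2.mem_iff.mp hve with rfl | rfl
    · exact hvK ha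
    · exact hvK hb
  unfold Cov at hnc
  push Not at hnc
  obtain ⟨e, he, hce⟩ := hnc
  have heE := hME he
  obtain ⟨-, he1, he2⟩ := mem_filter.mp heE
  revert he hce heE he1 he2
  induction e using Sym2.ind with
  | _ x y =>
    intro he hce heE he1 he2
    have hxy : G.Adj x y := he1
    have hxX := he2 x (Sym2.mem_mk_left x y)
    have hyX := he2 y (Sym2.mem_mk_right x y)
    have hxK : x ∈ K := by
      by_contra hx
      exact hce x (mem_sdiff.mpr ⟨hxX, hx⟩) (Sym2.mem_mk_left x y)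
    have hyK : y ∈ K := by
      by_contra hy
      exact hce y (mem_sdiff.mpr ⟨hyX, hy⟩) (Sym2.mem_mk_right x y)
    have h1 := h.pair hxK hyK
    have h2 : (nb G x ∩ nb G y) ∩ (X ∪ D) ⊆ (com s(x, y) \ C s(x, y)) ∪ (X \ K) := by
      intro v hv
      obtain ⟨hv1, hv2⟩ := mem_inter.mp hv
      obtain ⟨hvx, hvy⟩ := mem_inter.mp hv1
      rw [mem_nb] at hvx hvy
      by_cases hvX : v ∈ X
      · refine mem_union_right _ (mem_sdiff.mpr ⟨hvX, fun hvK => ?_⟩)
        exact htri x hxK y hyK v hvK hxy hvx hvy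
      · have hvD : v ∈ D := (mem_union.mp hv2).resolve_left hvX
        refine mem_union_left _ (mem_sdiff.mpr ⟨mem_filter.mpr ⟨mem_univ _, hvX, ?_⟩, ?_⟩)
        · intro u hu
          rcases Sym2.mem_iff.mp hu with rfl | rfl
          · exact hvx
          · exact hvy
        · intro hvC
          exact disjoint_left.mp hDR hvD (hR1 (mem_biUnion.mpr ⟨_, he, hvC⟩))
    have h3 := (card_le_card h2).trans (card_union_le _ _)
    have h4 := (hC _ heE).2.2
    omega

/-- At most `2 s + 1` common neighbours. -/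
theorem few_one (k s : ℕ) (hk : 1 ≤ k) (hG : KConn G (2 * k + s)) (X : Finset V)
    (hXk : X.card = k)
    (hcom : ∀ x ∈ X, ∀ y ∈ X, G.Adj x y → (nb G x ∩ nb G y).card ≤ 2 * s + 1) :
    DisjCycles G X := by
  classical
  have hV : 2 * k + s < Fintype.card V := hG.1
  have hXc : (Xᶜ).card = Fintype.card V - k := by rw [card_compl, hXk]
  -- in a bad pair `K = X`
  have hfull : ∀ D K, Bad G k s X D K → K = X ∧ D.card + 1 = k := by
    intro D K h
    obtain ⟨a, ha, b, hb, hab⟩ := h.edge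
    have h1 := h.pair ha hb
    have h2 : ((nb G a ∩ nb G b) ∩ (X ∪ D)).card ≤ 2 * s + 1 :=
      (card_le_card inter_subset_left).trans (hcom a (h.sub ha) b (h.sub hb) hab)
    have h3 := h.K_le
    have h4 := h.lt
    refine ⟨eq_of_subset_of_card_le h.sub (by rw [hXk]; omega), by omega⟩
  by_cases hv₀ : ∃ x ∈ X, ∃ y ∈ X, G.Adj x y ∧ ∃ v, v ∉ X ∧ G.Adj x v ∧ G.Adj y v
  · obtain ⟨x, hx, y, hy, hxy, v, hvX, hxv, hyv⟩ := hv₀
    obtain ⟨R, hR1, hR2, hR3⟩ := exists_subsuperset_card_eq (s := {v}) (t := Xᶜ) (n := k)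
      (by rw [singleton_subset_iff, mem_compl]; exact hvX) (by rw [card_singleton]; exact hk)
      (by omega)
    refine cycles_of_no_bad G k s hk hG X R hXk hR2 hR3 fun D K hDR h => ?_
    obtain ⟨rfl, hDk⟩ := hfull D K h
    have h1 := h.pair hx hy
    have h2 : (nb G x ∩ nb G y) ∩ (K ∪ D) ⊆ (nb G x ∩ nb G y).erase v := by
      intro w hw
      obtain ⟨hw1, hw2⟩ := mem_inter.mp hw
      refine mem_erase.mpr ⟨?_, hw1⟩
      rintro rfl
      rcases mem_union.mp hw2 with hw | hw
      · exact hvX hw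
      · exact disjoint_left.mp hDR hw (hR1 (mem_singleton_self _))
    have h3 := card_le_card h2
    have hvm : v ∈ nb G x ∩ nb G y := mem_inter.mpr ⟨(mem_nb G).mpr hxv, (mem_nb G).mpr hyv⟩
    rw [card_erase_of_mem hvm] at h3
    have h4 := hcom x hx y hy hxy
    omega
  · push Not at hv₀
    obtain ⟨R, hR2, hR3⟩ := exists_subset_card_eq (s := Xᶜ) (n := k) (by omega)
    refine cycles_of_no_bad G k s hk hG X R hXk hR2 hR3 fun D K hDR h => ?_
    obtain ⟨rfl, hDk⟩ := hfull D K h
    obtain ⟨x, hx, y, hy, hxy⟩ := h.edge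
    -- common neighbours of adjacent vertices of `X` lie in `X`
    have hsub : ∀ a ∈ K, ∀ b ∈ K, G.Adj a b → nb G a ∩ nb G b ⊆ K := by
      intro a ha b hb hab v hv
      obtain ⟨hva, hvb⟩ := mem_inter.mp hv
      rw [mem_nb] at hva hvb
      by_contra hvK
      exact hv₀ a ha b hb hab v hvK hva hvb
    obtain ⟨z, hz, hxz, hyz⟩ : ∃ z ∈ K, G.Adj x z ∧ G.Adj y z := by
      have h1 := h.pair hx hy
      have h2 : 0 < ((nb G x ∩ nb G y) ∩ (K ∪ D)).card := by omega
      obtain ⟨z, hz⟩ := card_pos.mp h2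
      obtain ⟨hz1, -⟩ := mem_inter.mp hz
      have h3 := hsub x hx y hy hxy hz1
      obtain ⟨hz2, hz3⟩ := mem_inter.mp hz1
      exact ⟨z, h3, (mem_nb G).mp hz2, (mem_nb G).mp hz3⟩
    -- degrees inside `X`
    have hdeg : ∀ a ∈ K, ∀ b ∈ K, G.Adj a b →
        (nb G a ∩ K).card + (nb G b ∩ K).card ≤ k + 2 * s + 1 := by
      intro a ha b hb hab
      have h1 := card_union_add_card_inter (nb G a ∩ K) (nb G b ∩ K)
      have h2 : (nb G a ∩ K ∪ nb G b ∩ K).card ≤ K.card :=
        card_le_card (union_subset inter_subset_right inter_subset_right)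
      have h3 : (nb G a ∩ K ∩ (nb G b ∩ K)).card ≤ (nb G a ∩ nb G b).card :=
        card_le_card (inter_subset_inter inter_subset_left inter_subset_left)
      have h4 := hcom a ha b hb hab
      omega
    have hdis : ∀ a ∈ K, ∀ b ∈ K, G.Adj a b → Disjoint (nb G a ∩ D) (nb G b ∩ D) := by
      intro a ha b hb hab
      rw [disjoint_left]
      intro v hv1 hv2
      obtain ⟨hva, hvD⟩ := mem_inter.mp hv1
      obtain ⟨hvb, -⟩ := mem_inter.mp hv2
      exact disjoint_left.mp h.disj hvD (hsub a ha b hb hab (mem_inter.mpr ⟨hva, hvb⟩))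
    have hsplit : ∀ a ∈ K, k + s ≤ (nb G a ∩ K).card + (nb G a ∩ D).card := by
      intro a ha
      have h1 := h.many a ha
      rw [inter_union_distrib_left] at h1
      exact h1.trans (card_union_le _ _)
    have hD3 : (nb G x ∩ D).card + (nb G y ∩ D).card + (nb G z ∩ D).card ≤ D.card := by
      rw [← card_union_of_disjoint (hdis x hx y hy hxy), ← card_union_of_disjoint]
      · exact card_le_card (union_subset (union_subset inter_subset_right inter_subset_right)
          inter_subset_right)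
      · rw [disjoint_union_left]
        exact ⟨hdis x hx z hz hxz, hdis y hy z hz hyz⟩
    have h1 := hdeg x hx y hy hxy
    have h2 := hdeg x hx z hz hxz
    have h3 := hdeg y hy z hz hyz
    have h4 := hsplit x hx
    have h5 := hsplit y hy
    have h6 := hsplit z hz
    have h7 : 1 < K.card := one_lt_card.mpr ⟨x, hx, y, hy, hxy.ne⟩
    omega

end Pool.Agent.Helper17.DC
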