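import Pool.Agent.Helper17.DC.Bad

set_option autoImplicit false

/-!
# Bad pairs and maximum matchings

If `(D, K)` is a bad pair and at least two more than half of the vertices of `X` are in `K`, then `K` contains an edge
of every maximum matching of the subgraph induced by `X`.
-/

namespace Pool.Agent.Helper17.DC

open Finset

/-- `M` is a matching of `G` inside `X`. -/
structure IsM {V : Type} (G : SimpleGraph V) (X : Finset V) (M : Finset (V × V)) : Prop where
  mem : ∀ p ∈ M, p.1 ∈ X ∧ p.2 ∈ X ∧ G.Adj p.1 p.2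
  dis : ∀ p ∈ M, ∀ p' ∈ M, p ≠ p' → p.1 ≠ p'.1 ∧ p.1 ≠ p'.2 ∧ p.2 ≠ p'.1 ∧ p.2 ≠ p'.2

/-- `v` is not covered by `M`. -/
def Unc {V : Type} (M : Finset (V × V)) (v : V) : Prop := ∀ p ∈ M, p.1 ≠ v ∧ p.2 ≠ v

section

variable {V : Type} [DecidableEq V] {G : SimpleGraph V} {X : Finset V} {M : Finset (V × V)}

theorem IsM.ins (h : IsM G X M) {a b : V} (ha : a ∈ X) (hb : b ∈ X) (hab : G.Adj a b)
    (hua : Unc M a) (hub : Unc M b) :
    IsM G X (insert (a, b) M) ∧ (insert (a, b) M).card = M.card + 1 := by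
  refine ⟨⟨?_, ?_⟩, ?_⟩
  · intro p hp
    rcases mem_insert.mp hp with rfl | hp
    · exact ⟨ha, hb, hab⟩
    · exact h.mem p hp
  · intro p hp p' hp' hne
    rcases mem_insert.mp hp with rfl | hp
    · rcases mem_insert.mp hp' with rfl | hp'
      · exact absurd rfl hne
      · exact ⟨(hua p' hp').1.symm, (hua p' hp').2.symm, (hub p' hp').1.symm, (hub p' hp').2.symm⟩
    · rcases mem_insert.mp hp' with rfl | hp'
      · exact ⟨(hua p hp).1, (hub p hp).1, (hua p hp).2, (hub p hp).2⟩
      · exact h.dis p hp p' hp' hne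
  · refine card_insert_of_notMem fun hmem => ?_
    exact (hua _ hmem).1 rfl

theorem IsM.erase (h : IsM G X M) (p : V × V) : IsM G X (M.erase p) :=
  ⟨fun p' hp' => h.mem p' (mem_of_mem_erase hp'),
    fun p' hp' p'' hp'' hne => h.dis p' (mem_of_mem_erase hp') p'' (mem_of_mem_erase hp'') hne⟩

omit [DecidableEq V] in
theorem exists_max (G : SimpleGraph V) (X : Finset V) :
    ∃ M : Finset (V × V), IsM G X M ∧ ∀ M' : Finset (V × V), IsM G X M' → M'.card ≤ M.card := by
  classical
  have hne : ((X ×ˢ X).powerset.filter fun M => IsM G X M).Nonempty :=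
    ⟨∅, mem_filter.mpr ⟨mem_powerset.mpr (empty_subset _), ⟨by simp, by simp⟩⟩⟩
  obtain ⟨M, hM, hmax⟩ := exists_max_image _ card hne
  refine ⟨M, (mem_filter.mp hM).2, fun M' hM' => hmax M' (mem_filter.mpr ⟨?_, hM'⟩)⟩
  rw [mem_powerset]
  intro p hp
  exact mem_product.mpr ⟨(hM'.mem p hp).1, (hM'.mem p hp).2.1⟩

/-- The partner of `y`, when `u` and `u'` are not covered and `y` is adjacent to `u`. -/
theorem IsM.partner (h : IsM G X M) (hmax : ∀ M' : Finset (V × V), IsM G X M' → M'.card ≤ M.card)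
    {u u' y : V} (huu : u ≠ u') (hu : u ∈ X) (hu' : u' ∈ X) (hy : y ∈ X) (hcu : Unc M u)
    (hcu' : Unc M u') (huy : G.Adj u y) :
    ∃ z ∈ X, ¬ G.Adj u' z ∧ ((y, z) ∈ M ∨ (z, y) ∈ M) := by
  classical
  by_cases hcy : Unc M y
  · obtain ⟨h1, h2⟩ := h.ins hu hy huy hcu hcy
    have h3 := hmax _ h1
    omega
  · unfold Unc at hcy
    push Not at hcy
    obtain ⟨p, hp, hpy⟩ := hcy
    have key : ∀ z : V, z ∈ X → (∀ v, (p.1 = v ∨ p.2 = v) ↔ (v = y ∨ v = z)) →
        ¬ G.Adj u' z := by
      intro z hz hpz hadj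
      have hE := h.erase p
      have hcov : ∀ v, (v = y ∨ v = z) → Unc (M.erase p) v := by
        intro v hv p' hp'
        obtain ⟨hne, hp'M⟩ := mem_erase.mp hp'
        have h4 := h.dis p' hp'M p hp hne
        rcases (hpz v).mpr hv with h5 | h5
        · exact ⟨fun h6 => h4.1 (h6.trans h5.symm), fun h6 => h4.2.2.1 (h6.trans h5.symm)⟩
        · exact ⟨fun h6 => h4.2.1 (h6.trans h5.symm), fun h6 => h4.2.2.2 (h6.trans h5.symm)⟩
      have hyz : y ≠ z := by
        intro hyz
        have h5 := (hpz p.1).mp (Or.inl rfl)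
        have h6 := (hpz p.2).mp (Or.inr rfl)
        have h7 : p.1 = p.2 := by
          rcases h5 with h5 | h5 <;> rcases h6 with h6 | h6 <;> simp_all
        exact (h.mem p hp).2.2.ne h7
      have hyu : Unc (M.erase p) u := fun p' hp' => hcu p' (mem_of_mem_erase hp')
      have hyu' : Unc (M.erase p) u' := fun p' hp' => hcu' p' (mem_of_mem_erase hp')
      obtain ⟨h1, h2⟩ := hE.ins hu hy huy hyu (hcov y (Or.inl rfl))
      have hzu : z ≠ u := by
        rintro rfl
        rcases (hpz z).mpr (Or.inr rfl) with h5 | h5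
        · exact (hcu p hp).1 h5
        · exact (hcu p hp).2 h5
      have hyu2 : y ≠ u' := by
        rintro rfl
        rcases (hpz y).mpr (Or.inl rfl) with h5 | h5
        · exact (hcu' p hp).1 h5
        · exact (hcu' p hp).2 h5
      have hzc : Unc (insert (u, y) (M.erase p)) z := by
        intro p' hp'
        rcases mem_insert.mp hp' with rfl | hp'
        · exact ⟨hzu.symm, hyz⟩
        · exact hcov z (Or.inr rfl) p' hp'
      have huc : Unc (insert (u, y) (M.erase p)) u' := by
        intro p' hp'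
        rcases mem_insert.mp hp' with rfl | hp'
        · exact ⟨huu, hyu2⟩
        · exact hyu' p' hp'
      obtain ⟨h3, h4⟩ := h1.ins hz hu' hadj.symm hzc huc
      have h5 := hmax _ h3
      have h6 := card_erase_of_mem hp
      have h7 : 0 < M.card := card_pos.mpr ⟨p, hp⟩
      omega
    by_cases hp1 : p.1 = y
    · refine ⟨p.2, (h.mem p hp).2.1, key p.2 (h.mem p hp).2.1 ?_, Or.inl ?_⟩
      · intro v
        rw [hp1]
        constructor
        · rintro (h5 | h5)
          · exact Or.inl h5.symm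
          · exact Or.inr h5.symm
        · rintro (h5 | h5)
          · exact Or.inl h5.symm
          · exact Or.inr h5.symm
      · rw [← hp1]
        exact hp
    · have hp2 := hpy hp1
      refine ⟨p.1, (h.mem p hp).1, key p.1 (h.mem p hp).1 ?_, Or.inr ?_⟩
      · intro v
        rw [hp2]
        constructor
        · rintro (h5 | h5)
          · exact Or.inr h5.symm
          · exact Or.inl h5.symm
        · rintro (h5 | h5)
          · exact Or.inr h5.symm
          · exact Or.inl h5.symm
      · rw [← hp2]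
        exact hp

end

section

variable {V : Type} [Fintype V] [DecidableEq V] {G : SimpleGraph V} [DecidableRel G.Adj]
variable {k s : ℕ} {X D K : Finset V}

/-- The number of neighbours in `K` of a vertex of `K`. -/
theorem Bad.deg (h : Bad G k s X D K) {x : V} (hx : x ∈ K) :
    s + 1 + ((X \ K).filter fun v => ¬ G.Adj x v).card ≤ (K.filter fun v => G.Adj x v).card := by
  have h1 : nb G x ∩ (X ∪ D) ⊆
      (K.filter fun v => G.Adj x v) ∪ ((X \ K).filter fun v => G.Adj x v) ∪ D := by
    intro v hv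
    obtain ⟨hv1, hv2⟩ := mem_inter.mp hv
    rw [mem_nb] at hv1
    by_cases hvD : v ∈ D
    · exact mem_union_right _ hvD
    · refine mem_union_left _ ?_
      have hvX := (mem_union.mp hv2).resolve_right hvD
      by_cases hvK : v ∈ K
      · exact mem_union_left _ (mem_filter.mpr ⟨hvK, hv1⟩)
      · exact mem_union_right _ (mem_filter.mpr ⟨mem_sdiff.mpr ⟨hvX, hvK⟩, hv1⟩)
  have h2 := (card_le_card h1).trans (card_union_le _ _)
  have h3 := card_union_le (K.filter fun v => G.Adj x v) ((X \ K).filter fun v => G.Adj x v)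
  have h4 := card_filter_add_card_filter_not (s := X \ K) (fun v => G.Adj x v)
  have h5 : (X \ K).card = k - K.card := by rw [card_sdiff_of_subset h.sub, h.card]
  have h6 := h.many x hx
  have h7 := h.lt
  have h8 := h.K_le
  omega

/-- `K` contains an edge of every maximum matching of `X`. -/
theorem Bad.exists_matching_edge (h : Bad G k s X D K) {M : Finset (V × V)} (hM : IsM G X M)
    (hmax : ∀ M' : Finset (V × V), IsM G X M' → M'.card ≤ M.card)
    (hj : 2 * (X \ K).card + 2 ≤ k) : ∃ p ∈ M, p.1 ∈ K ∧ p.2 ∈ K := by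
  classical
  by_contra hcon
  push Not at hcon
  -- every edge of `M` has an end outside `K`
  have hMJ : M.card ≤ (X \ K).card := by
    have hex : ∀ p ∈ M, ∃ v ∈ X \ K, p.1 = v ∨ p.2 = v := by
      intro p hp
      by_cases hp1 : p.1 ∈ K
      · exact ⟨p.2, mem_sdiff.mpr ⟨(hM.mem p hp).2.1, hcon p hp hp1⟩, Or.inr rfl⟩
      · exact ⟨p.1, mem_sdiff.mpr ⟨(hM.mem p hp).1, hp1⟩, Or.inl rfl⟩
    choose f hf1 hf2 using hex
    refine le_trans (card_attach (s := M)).ge ?_
    refine card_le_card_of_injOn (fun p => f p.1 p.2) (fun p _ => hf1 p.1 p.2) ?_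
    rintro ⟨p, hp⟩ - ⟨p', hp'⟩ - heq
    by_contra hne
    have hne' : p ≠ p' := fun h => hne (Subtype.ext h)
    have h1 := hM.dis p hp p' hp' hne'
    have heq' : f p hp = f p' hp' := heq
    rcases hf2 p hp with h2 | h2 <;> rcases hf2 p' hp' with h3 | h3
    · exact h1.1 (h2.trans (heq'.trans h3.symm))
    · exact h1.2.1 (h2.trans (heq'.trans h3.symm))
    · exact h1.2.2.1 (h2.trans (heq'.trans h3.symm))
    · exact h1.2.2.2 (h2.trans (heq'.trans h3.symm))
  obtain ⟨U, hU⟩ : ∃ U, U = K.filter fun v => Unc M v := ⟨_, rfl⟩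
  have hKU : (K.filter fun v => ¬ Unc M v).card ≤ M.card := by
    have hex : ∀ v ∈ K.filter (fun v => ¬ Unc M v), ∃ p ∈ M, p.1 = v ∨ p.2 = v := by
      intro v hv
      have h1 := (mem_filter.mp hv).2
      unfold Unc at h1
      push Not at h1
      obtain ⟨p, hp, h2⟩ := h1
      refine ⟨p, hp, ?_⟩
      by_cases h3 : p.1 = v
      · exact Or.inl h3
      · exact Or.inr (h2 h3)
    choose f hf1 hf2 using hex
    refine le_trans (card_attach (s := K.filter fun v => ¬ Unc M v)).ge ?_
    refine card_le_card_of_injOn (fun v => f v.1 v.2) (fun v _ => hf1 v.1 v.2) ?_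
    rintro ⟨v, hv⟩ - ⟨v', hv'⟩ - heq
    have heq' : f v hv = f v' hv' := heq
    have h2 := hf2 v hv
    have h3 := hf2 v' hv'
    rw [← heq'] at h3
    have hvK := (mem_filter.mp hv).1
    have hvK' := (mem_filter.mp hv').1
    have h4 := hcon _ (hf1 v hv)
    rcases h2 with h2 | h2 <;> rcases h3 with h3 | h3
    · exact Subtype.ext (h2.symm.trans h3)
    · rw [← h2] at hvK
      rw [← h3] at hvK'
      exact absurd hvK' (h4 hvK)
    · rw [← h2] at hvK
      rw [← h3] at hvK'
      exact absurd hvK (h4 hvK')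
    · exact Subtype.ext (h2.symm.trans h3)
  have hsum := card_filter_add_card_filter_not (s := K) (fun v => Unc M v)
  have hJ : (X \ K).card = k - K.card := by rw [card_sdiff_of_subset h.sub, h.card]
  have hKk := h.K_le
  have hU2 : 1 < U.card := by
    rw [hU]
    omega
  obtain ⟨u, hu, u', hu', huu⟩ := one_lt_card.mp hU2
  have key : ∀ u ∈ U, ∀ u' ∈ U, u ≠ u' →
      (K.filter fun v => G.Adj u v).card < (K.filter fun v => G.Adj u' v).card := by
    intro u hu u' hu' huu
    rw [hU] at hu hu'
    obtain ⟨huK, huc⟩ := mem_filter.mp hu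
    obtain ⟨huK', huc'⟩ := mem_filter.mp hu'
    have hex : ∀ y ∈ K.filter (fun v => G.Adj u v), ∃ z ∈ X, ¬ G.Adj u' z ∧
        ((y, z) ∈ M ∨ (z, y) ∈ M) := fun y hy =>
      hM.partner hmax huu (h.sub huK) (h.sub huK') (h.sub (mem_filter.mp hy).1) huc huc'
        (mem_filter.mp hy).2
    choose f hf1 hf2 hf3 using hex
    have h1 : (K.filter fun v => G.Adj u v).card ≤
        ((X \ K).filter fun v => ¬ G.Adj u' v).card := by
      refine le_trans (card_attach (s := K.filter fun v => G.Adj u v)).ge ?_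
      refine card_le_card_of_injOn (fun v => f v.1 v.2) ?_ ?_
      · rintro ⟨y, hy⟩ -
        refine mem_coe.mpr (mem_filter.mpr ⟨mem_sdiff.mpr ⟨hf1 y hy, fun hK => ?_⟩, hf2 y hy⟩)
        have hyK := (mem_filter.mp hy).1
        rcases hf3 y hy with h2 | h2
        · exact hcon _ h2 hyK hK
        · exact hcon _ h2 hK hyK
      · rintro ⟨y, hy⟩ - ⟨y', hy'⟩ - heq
        have heq' : f y hy = f y' hy' := heq
        apply Subtype.ext
        show y = y'
        by_contra hne
        have h2 := hf3 y hy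
        have h3 := hf3 y' hy'
        rw [← heq'] at h3
        rcases h2 with h2 | h2 <;> rcases h3 with h3 | h3
        · exact (hM.dis _ h2 _ h3 fun h => hne (congrArg Prod.fst h)).2.2.2 rfl
        · have h4 : ((y, f y hy) : V × V) ≠ (f y hy, y') := fun h =>
            (hM.mem _ h2).2.2.ne (congrArg Prod.fst h)
          exact (hM.dis _ h2 _ h3 h4).2.2.1 rfl
        · have h4 : ((f y hy, y) : V × V) ≠ (y', f y hy) := fun h =>
            (hM.mem _ h2).2.2.ne (congrArg Prod.snd h).symm
          exact (hM.dis _ h2 _ h3 h4).2.1 rfl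
        · exact (hM.dis _ h2 _ h3 fun h => hne (congrArg Prod.snd h)).1 rfl
    have h2 := h.deg huK'
    omega
  have h1 := key u hu u' hu' huu
  have h2 := key u' hu' u hu huu.symm
  omega

end

end Pool.Agent.Helper17.DC
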