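import Pool.Agent.Helper17.DC.Bad

set_option autoImplicit false

/-!
# Few common neighbours of any two vertices of `X`
-/

namespace Pool.Agent.Helper17.DC

open Finset
open Pool.Agent.DC (KConn DisjCycles)

section

variable {V : Type} [Fintype V] [DecidableEq V] (G : SimpleGraph V) [DecidableRel G.Adj]

/-- Double counting. -/
theorem sum_deg (K Y : Finset V) :
    ∑ y ∈ Y, (K.filter fun x => G.Adj x y).card = ∑ x ∈ K, (nb G x ∩ Y).card := by
  have h1 : ∀ y ∈ Y, (K.filter fun x => G.Adj x y).card = ∑ x ∈ K, if G.Adj x y then 1 else 0 := by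
    intro y _
    rw [card_filter]
  have h2 : ∀ x ∈ K, (nb G x ∩ Y).card = ∑ y ∈ Y, if G.Adj x y then 1 else 0 := by
    intro x _
    rw [← card_filter]
    congr 1
    ext y
    simp [mem_nb, and_comm]
  rw [sum_congr rfl h1, sum_congr rfl h2, sum_comm]

theorem sum_deg_sq (K Y : Finset V) :
    ∑ y ∈ Y, (K.filter fun x => G.Adj x y).card ^ 2 =
      ∑ x ∈ K, ∑ z ∈ K, ((nb G x ∩ nb G z) ∩ Y).card := by
  have h1 : ∀ y ∈ Y, (K.filter fun x => G.Adj x y).card ^ 2 =
      ∑ x ∈ K, ∑ z ∈ K, if G.Adj x y ∧ G.Adj z y then 1 else 0 := by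
    intro y _
    rw [card_filter, sq, sum_mul_sum]
    refine sum_congr rfl fun x _ => sum_congr rfl fun z _ => ?_
    by_cases hx : G.Adj x y <;> by_cases hz : G.Adj z y <;> simp [hx, hz]
  have h2 : ∀ x ∈ K, ∀ z ∈ K, ((nb G x ∩ nb G z) ∩ Y).card =
      ∑ y ∈ Y, if G.Adj x y ∧ G.Adj z y then 1 else 0 := by
    intro x _ z _
    rw [← card_filter]
    congr 1
    ext y
    simp only [mem_inter, mem_nb, mem_filter]
    tauto
  rw [sum_congr rfl h1, sum_comm]
  refine sum_congr rfl fun x hx => ?_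
  rw [sum_comm]
  exact sum_congr rfl fun z hz => (h2 x hx z hz).symm

theorem cauchy (K Y : Finset V) (t : ℕ)
    (ht : ∀ x ∈ K, ∀ z ∈ K, x ≠ z → ((nb G x ∩ nb G z) ∩ Y).card ≤ t) :
    (∑ x ∈ K, (nb G x ∩ Y).card) ^ 2 ≤
      Y.card * (∑ x ∈ K, (nb G x ∩ Y).card + K.card * ((K.card - 1) * t)) := by
  rw [← sum_deg G K Y]
  refine (sq_sum_le_card_mul_sum_sq (s := Y)
    (f := fun y => (K.filter fun x => G.Adj x y).card)).trans (Nat.mul_le_mul_left _ ?_)
  rw [sum_deg_sq G K Y, sum_deg G K Y]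
  calc ∑ x ∈ K, ∑ z ∈ K, ((nb G x ∩ nb G z) ∩ Y).card ≤
        ∑ x ∈ K, ((nb G x ∩ Y).card + (K.card - 1) * t) := by
        refine sum_le_sum fun x hx => ?_
        rw [← add_sum_erase K _ hx, inter_self]
        refine Nat.add_le_add_left ?_ _
        rw [← card_erase_of_mem hx]
        refine (sum_le_card_nsmul _ _ t fun z hz => ?_).trans (by rw [smul_eq_mul])
        exact ht x hx z (mem_erase.mp hz).2 (mem_erase.mp hz).1.symm
    _ = ∑ x ∈ K, (nb G x ∩ Y).card + K.card * ((K.card - 1) * t) := by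
        rw [sum_add_distrib, sum_const, smul_eq_mul]

/-- Any two vertices of `X` have few common neighbours: any `R` will do. -/
theorem few_pairs (k s t : ℕ) (hk : 1 ≤ k) (ht : t * (2 * k - 1) < (k + s) * (k + s - 1))
    (hG : KConn G (2 * k + s)) (X : Finset V) (hXk : X.card = k)
    (hcom : ∀ x ∈ X, ∀ y ∈ X, x ≠ y → (nb G x ∩ nb G y).card ≤ t) : DisjCycles G X := by
  classical
  have hV : 2 * k + s < Fintype.card V := hG.1
  obtain ⟨R, hRX, hRk⟩ := exists_subset_card_eq (s := Xᶜ) (n := k) (by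
    rw [card_compl, hXk]
    omega)
  refine cycles_of_no_bad G k s hk hG X R hXk hRX hRk fun D K _ hbad => ?_
  have h1 := hbad.lt
  have h2 := hbad.K_le
  have h3 := hbad.union_card
  have h5 := cauchy G K (X ∪ D) t fun x hx z hz hxz =>
    (card_le_card inter_subset_left).trans (hcom x (hbad.sub hx) z (hbad.sub hz) hxz)
  have h6 : K.card * (k + s) ≤ ∑ x ∈ K, (nb G x ∩ (X ∪ D)).card := by
    rw [← smul_eq_mul]
    exact card_nsmul_le_sum _ _ _ fun x hx => hbad.many x hx
  -- at least two vertices in `K`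
  have h7 : 2 ≤ K.card := by
    by_contra hcon
    have hD : D.card = 0 := by omega
    have hK : 0 < K.card := by omega
    obtain ⟨x, hx⟩ := card_pos.mp hK
    have h8 := hbad.many x hx
    have h9 : nb G x ∩ (X ∪ D) ⊆ X.erase x := by
      intro v hv
      obtain ⟨hv1, hv2⟩ := mem_inter.mp hv
      rw [card_eq_zero.mp hD, union_empty] at hv2
      exact mem_erase.mpr ⟨((mem_nb G).mp hv1).ne', hv2⟩
    have h10 := card_le_card h9
    rw [card_erase_of_mem (hbad.sub hx)] at h10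
    omega
  set I := ∑ x ∈ K, (nb G x ∩ (X ∪ D)).card with hI
  rw [h3] at h5
  obtain ⟨m, hm⟩ : ∃ m, K.card = m + 1 := ⟨K.card - 1, by omega⟩
  obtain ⟨u, hu⟩ : ∃ u, k + s = u + 1 := ⟨k + s - 1, by omega⟩
  rw [hm, Nat.add_sub_cancel] at h5
  rw [hm, hu] at h6
  rw [hu, Nat.add_sub_cancel] at ht
  have h8 : k + D.card ≤ 2 * k - 1 := by omega
  -- `I ≥ (m + 1) (u + 1)`, `I ^ 2 ≤ (k + d) (I + (m + 1) m t)`
  have h9 : m * (t * (2 * k - 1)) + m ≤ m * ((u + 1) * u) := by
    have := Nat.mul_le_mul_left m (Nat.succ_le_of_lt ht)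
    have e : m * (t * (2 * k - 1)).succ = m * (t * (2 * k - 1)) + m := by
      rw [Nat.succ_eq_add_one]; ring
    omega
  have h10 : k + D.card ≤ k + m := by omega
  have h11 : k ≤ u + 1 := by omega
  have hm1 : 1 ≤ m := by omega
  have h12 : (k + D.card) * t ≤ t * (2 * k - 1) := by
    rw [mul_comm t]
    exact Nat.mul_le_mul_right _ h8
  generalize t * (2 * k - 1) = T at *
  generalize k + D.card = Y at *
  have a1 : Y + m * u ≤ I := by
    have e : (m + 1) * (u + 1) = m * u + m + u + 1 := by ring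
    omega
  have a2 : I * (Y + m * u) ≤ Y * (I + (m + 1) * (m * t)) := by
    refine (Nat.mul_le_mul_left I a1).trans ?_
    rwa [← sq]
  have a3 : (m + 1) * (u + 1) * (m * u) ≤ I * (m * u) := Nat.mul_le_mul_right _ h6
  have a4 : (m + 1) * (m * (Y * t)) ≤ (m + 1) * (m * T) :=
    Nat.mul_le_mul_left _ (Nat.mul_le_mul_left _ h12)
  have a5 : (m + 1) * (m * T + m) ≤ (m + 1) * (m * ((u + 1) * u)) := Nat.mul_le_mul_left _ h9
  have e1 : I * (Y + m * u) = I * Y + I * (m * u) := by ring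
  have e2 : Y * (I + (m + 1) * (m * t)) = I * Y + (m + 1) * (m * (Y * t)) := by ring
  have e3 : (m + 1) * (m * T + m) = (m + 1) * (m * T) + (m + 1) * m := by ring
  have e4 : (m + 1) * (m * ((u + 1) * u)) = (m + 1) * (u + 1) * (m * u) := by ring
  have h13 : 0 < (m + 1) * m := Nat.mul_pos (by omega) hm1
  rw [e1, e2] at a2
  rw [e3, e4] at a5
  omega

/-- If no cycles exist, more than `2s + 3 - k` vertices of `X` have pairwise more than
`4s + 3 - k` common neighbours. -/
theorem few_window (k s : ℕ) (hk : 1 ≤ k) (hks : k ≤ 2 * s + 3)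
    (hG : KConn G (2 * k + s)) (X : Finset V) (hXk : X.card = k)
    (hcom : ∀ S ⊆ X, k + S.card = 2 * s + 4 →
      ∃ x ∈ S, ∃ y ∈ S, x ≠ y ∧ (nb G x ∩ nb G y).card + k ≤ 4 * s + 3) : DisjCycles G X := by
  classical
  by_contra hcon
  have hV : 2 * k + s < Fintype.card V := hG.1
  have hXc : k ≤ (Xᶜ).card := by
    rw [card_compl, hXk]
    omega
  have hex : ∀ R ⊆ Xᶜ, R.card = k → ∃ D K : Finset V, Disjoint D R ∧ Bad G k s X D K := by
    intro R hRX hRk
    by_contra h
    push Not at h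
    exact hcon (cycles_of_no_bad G k s hk hG X R hXk hRX hRk h)
  obtain ⟨R₁, hR₁X, hR₁k⟩ := exists_subset_card_eq hXc
  obtain ⟨D₁, K₁, -, hb₁⟩ := hex R₁ hR₁X hR₁k
  have hdk : ∀ D K : Finset V, Bad G k s X D K → D.card + 1 ≤ k ∧ s + 2 ≤ K.card := by
    intro D K hb
    have h1 := hb.lt
    have h2 := hb.K_le
    refine ⟨by omega, ?_⟩
    obtain ⟨x, hx⟩ := card_pos.mp (show 0 < K.card by omega)
    have h3 := hb.many x hx
    have h4 : nb G x ∩ (X ∪ D) ⊆ X.erase x ∪ D := by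
      intro v hv
      obtain ⟨hv1, hv2⟩ := mem_inter.mp hv
      rcases mem_union.mp hv2 with hv2 | hv2
      · exact mem_union_left _ (mem_erase.mpr ⟨((mem_nb G).mp hv1).ne', hv2⟩)
      · exact mem_union_right _ hv2
    have h5 := (card_le_card h4).trans (card_union_le _ _)
    rw [card_erase_of_mem (hb.sub hx), hXk] at h5
    omega
  have hD₁X : D₁ ⊆ Xᶜ := fun v hv => mem_compl.mpr (disjoint_left.mp hb₁.disj hv)
  obtain ⟨R₂, hDR, hR₂X, hR₂k⟩ := exists_subsuperset_card_eq hD₁X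
    (by have := (hdk _ _ hb₁).1; omega) hXc
  obtain ⟨D₂, K₂, hD₂R, hb₂⟩ := hex R₂ hR₂X hR₂k
  have hDD : Disjoint D₁ D₂ := (hD₂R.mono_right hDR).symm
  have h1 := hdk _ _ hb₁
  have h2 := hdk _ _ hb₂
  -- the intersection
  have h3 : 2 * s + 4 ≤ (K₁ ∩ K₂).card + k := by
    have h4 := card_union_add_card_inter K₁ K₂
    have h5 := card_le_card (union_subset hb₁.sub hb₂.sub)
    omega
  obtain ⟨S, hS, hSc⟩ := exists_subset_card_eq (s := K₁ ∩ K₂) (n := 2 * s + 4 - k) (by omega)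
  obtain ⟨x, hx, y, hy, hxy, hc⟩ := hcom S ((hS.trans inter_subset_left).trans hb₁.sub) (by omega)
  have key : ∀ z ∈ S, k + 2 * s + 1 ≤ (nb G z ∩ (X ∪ (D₁ ∪ D₂))).card := by
    intro z hz
    have hz1 := (mem_inter.mp (hS hz)).1
    have hz2 := (mem_inter.mp (hS hz)).2
    have h4 := hb₁.many z hz1
    have h5 := hb₂.many z hz2
    have hX : (nb G z ∩ X).card + 1 ≤ k := by
      have h6 : nb G z ∩ X ⊆ X.erase z := by
        intro v hv
        obtain ⟨hv1, hv2⟩ := mem_inter.mp hv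
        exact mem_erase.mpr ⟨((mem_nb G).mp hv1).ne', hv2⟩
      have h7 := card_le_card h6
      rw [card_erase_of_mem (hb₁.sub hz1), hXk] at h7
      omega
    have e1 : (nb G z ∩ (X ∪ D₁)).card = (nb G z ∩ X).card + (nb G z ∩ D₁).card := by
      rw [inter_union_distrib_left, card_union_of_disjoint]
      exact (hb₁.disj.symm.mono inter_subset_right inter_subset_right)
    have e2 : (nb G z ∩ (X ∪ D₂)).card = (nb G z ∩ X).card + (nb G z ∩ D₂).card := by
      rw [inter_union_distrib_left, card_union_of_disjoint]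
      exact (hb₂.disj.symm.mono inter_subset_right inter_subset_right)
    have e3 : (nb G z ∩ (X ∪ (D₁ ∪ D₂))).card =
        (nb G z ∩ X).card + ((nb G z ∩ D₁).card + (nb G z ∩ D₂).card) := by
      rw [inter_union_distrib_left, card_union_of_disjoint, inter_union_distrib_left,
        card_union_of_disjoint]
      · exact hDD.mono inter_subset_right inter_subset_right
      · exact ((disjoint_union_left.mpr ⟨hb₁.disj, hb₂.disj⟩).symm.mono inter_subset_right
          inter_subset_right)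
    omega
  have h4 := key x hx
  have h5 := key y hy
  have h6 := card_union_add_card_inter (nb G x ∩ (X ∪ (D₁ ∪ D₂))) (nb G y ∩ (X ∪ (D₁ ∪ D₂)))
  have h7 : (nb G x ∩ (X ∪ (D₁ ∪ D₂)) ∪ nb G y ∩ (X ∪ (D₁ ∪ D₂))).card ≤
      (X ∪ (D₁ ∪ D₂)).card := card_le_card (union_subset inter_subset_right inter_subset_right)
  have h8 : (X ∪ (D₁ ∪ D₂)).card ≤ k + (D₁.card + D₂.card) := by
    refine (card_union_le _ _).trans ?_
    rw [hXk]
    exact Nat.add_le_add_left (card_union_le _ _) _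
  have h9 : (nb G x ∩ (X ∪ (D₁ ∪ D₂)) ∩ (nb G y ∩ (X ∪ (D₁ ∪ D₂)))).card ≤
      (nb G x ∩ nb G y).card := card_le_card fun v hv => by
    simp only [mem_inter] at hv ⊢
    exact ⟨hv.1.1, hv.2.1⟩
  omega

end

end Pool.Agent.Helper17.DC
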