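import Pool.Agent.Helper17.DC.Almost

set_option autoImplicit false

/-!
# Disjoint cycles for almost all sets of `k` vertices which contain prescribed vertices

Let `G` be `(2k + s)`-connected with `n ≥ 3k` vertices and `Y` a set of at most `(k + s + 2) / 2` vertices. All but a
proportion `3k³ / (n + 1 - k)` of the `k`-sets `X ⊇ Y` have `k` disjoint cycles each containing exactly one vertex of `X`.
-/

namespace Pool.Agent.Helper17.DC

open Finset
open Pool.Agent.DC (KConn DisjCycles outN kconn_degree)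

section

variable {V : Type} [Fintype V] [DecidableEq V] (G : SimpleGraph V) [DecidableRel G.Adj]

/-- The neighbours of the elements of `A` of degree at most `D`. -/
def lowNb (D : ℕ) (A : Finset V) : Finset V :=
  (A.filter fun v => (nb G v).card ≤ D).biUnion fun v => nb G v

theorem lowNb_card (D : ℕ) (A : Finset V) : (lowNb G D A).card ≤ A.card * D :=
  (card_biUnion_le_card_mul _ _ D fun _ hv => (mem_filter.mp hv).2).trans
    (Nat.mul_le_mul_right _ (card_filter_le _ _))

/-- The `i`-sets which contain `Y`. -/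
def above (Y : Finset V) (i : ℕ) : Finset (Finset V) :=
  (powersetCard i (univ : Finset V)).filter fun X => Y ⊆ X

theorem mem_above {Y X : Finset V} {i : ℕ} : X ∈ above Y i ↔ X.card = i ∧ Y ⊆ X := by
  rw [above, mem_filter, mem_powersetCard]
  exact ⟨fun h => ⟨h.1.2, h.2⟩, fun h => ⟨⟨subset_univ _, h.1⟩, h.2⟩⟩

theorem above_mul (Y : Finset V) (i : ℕ) :
    (above Y i).card * (Fintype.card V - i) ≤ (above Y (i + 1)).card * (i + 1) := by
  have h1 : ((above Y i).sigma fun A => Aᶜ).card = (above Y i).card * (Fintype.card V - i) := by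
    rw [card_sigma, sum_const_nat]
    intro A hA
    rw [card_compl, (mem_above.mp hA).1]
  have h2 : ((above Y (i + 1)).sigma fun X => X).card = (above Y (i + 1)).card * (i + 1) := by
    rw [card_sigma, sum_const_nat]
    intro A hA
    exact (mem_above.mp hA).1
  rw [← h1, ← h2]
  refine card_le_card_of_injOn (fun p => ⟨insert p.2 p.1, p.2⟩) ?_ ?_
  · rintro ⟨A, r⟩ hp
    obtain ⟨hA, hr⟩ := mem_sigma.mp (mem_coe.mp hp)
    rw [mem_compl] at hr
    obtain ⟨hA1, hA2⟩ := mem_above.mp hA
    refine mem_coe.mpr (mem_sigma.mpr ⟨mem_above.mpr ⟨?_, hA2.trans (subset_insert _ _)⟩,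
      mem_insert_self _ _⟩)
    rw [card_insert_of_notMem hr, hA1]
  · rintro ⟨A, r⟩ hp ⟨B, t⟩ hq h
    have h3 : (⟨insert r A, r⟩ : (_ : Finset V) × V) = ⟨insert t B, t⟩ := h
    obtain ⟨h4, h5⟩ := Sigma.mk.inj_iff.mp h3
    have h6 : r = t := eq_of_heq h5
    subst h6
    have hr : r ∉ A := by
      have := (mem_sigma.mp (mem_coe.mp hp)).2
      rwa [mem_compl] at this
    have ht : r ∉ B := by
      have := (mem_sigma.mp (mem_coe.mp hq)).2
      rwa [mem_compl] at this
    have h7 : A = B := by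
      rw [← erase_insert hr, ← erase_insert ht, h4]
    rw [h7]

variable {G}

theorem cycles_of_good {k s : ℕ} (hk : 1 ≤ k) (hV : 3 * k ≤ Fintype.card V)
    (hG : KConn G (2 * k + s)) (X Y : Finset V) (hXk : X.card = k) (hYX : Y ⊆ X)
    (hY : 2 * Y.card ≤ k + s + 2)
    (hgood : ∀ r ∈ X, r ∉ Y → ∀ v ∈ X, (nb G v).card ≤ 3 * k - 2 → ¬ G.Adj v r) :
    DisjCycles G X := by
  have hG' : KConn G (2 * k) := ⟨by have := hG.1; omega, fun S hS => hG.2 S (by omega)⟩
  have hYk : Y.card ≤ k := hXk ▸ card_le_card hYX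
  have key : ∀ j < k, (lev G k X j).card ≤ j ∨
      ((lev G k X j).card ≤ j + 1 ∧ j + 1 = Y.card) := by
    intro j hj
    have hLX : lev G k X j ⊆ X := filter_subset _ _
    by_cases hL : lev G k X j ⊆ Y
    · rcases (lev G k X j).eq_empty_or_nonempty with h0 | ⟨x, hx⟩
      · exact Or.inl (by rw [h0, card_empty]; exact Nat.zero_le _)
      · have h1 : nb G x ∩ X ⊆ Y.erase x := by
          intro v hv
          obtain ⟨hv1, hv2⟩ := mem_inter.mp hv
          have hadj := (mem_nb G).mp hv1
          refine mem_erase.mpr ⟨hadj.ne', ?_⟩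
          by_contra hvY
          exact hgood v hv2 hvY x (hLX hx) (lev_deg hXk hj hx) hadj
        have h2 := card_le_card h1
        rw [card_erase_of_mem (hL hx)] at h2
        have h3 := lev_in hG hx
        have h4 := card_le_card hL
        have h5 : 0 < Y.card := card_pos.mpr ⟨x, hL hx⟩
        omega
    · obtain ⟨x, hx, hxY⟩ := not_subset.mp hL
      have h1 : nb G x ∩ X ⊆ X \ lev G k X j := by
        intro v hv
        obtain ⟨hv1, hv2⟩ := mem_inter.mp hv
        have hadj := (mem_nb G).mp hv1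
        refine mem_sdiff.mpr ⟨hv2, fun hvL => ?_⟩
        exact hgood x (hLX hx) hxY v hv2 (lev_deg hXk hj hvL) hadj.symm
      have h2 := card_le_card h1
      rw [card_sdiff_of_subset hLX, hXk] at h2
      have h3 := lev_in hG hx
      have h4 := card_le_card hLX
      left
      omega
  refine Pool.Agent.Helper76.DC.profile_main G k (Y.card - 1) hk hV hG' X hXk
    (fun j hj hj2 => ?_) ?_
  · have := key j hj
    unfold lev at this
    omega
  · have := key (Y.card - 1) (by omega)
    unfold lev at this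
    omega

end

/-- The number of failing sets above `Y`. -/
theorem few_above {V : Type} [Fintype V] (G : SimpleGraph V) (k s : ℕ) (hk : 1 ≤ k)
    (hV : 3 * k ≤ Fintype.card V) (hG : KConn G (2 * k + s)) (Y : Finset V)
    (hY : 2 * Y.card ≤ k + s + 2) :
    {X : Finset V | X.card = k ∧ Y ⊆ X ∧ ¬ DisjCycles G X}.ncard * (Fintype.card V + 1 - k) ≤
      3 * k ^ 3 * {X : Finset V | X.card = k ∧ Y ⊆ X}.ncard := by
  classical
  have h1 : {X : Finset V | X.card = k ∧ Y ⊆ X ∧ ¬ DisjCycles G X} ⊆
      (((above Y (k - 1)).biUnion fun A => (lowNb G (3 * k - 2) A).image fun r => insert r A :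
        Finset (Finset V)) : Set (Finset V)) := by
    rintro X ⟨hXk, hYX, hX⟩
    by_contra hcon
    refine hX (cycles_of_good hk hV hG X Y hXk hYX hY fun r hr hrY v hv hvD hadj => hcon ?_)
    refine mem_coe.mpr (mem_biUnion.mpr ⟨X.erase r, mem_above.mpr ⟨?_, ?_⟩,
      mem_image.mpr ⟨r, ?_, insert_erase hr⟩⟩)
    · rw [card_erase_of_mem hr, hXk]
    · intro y hy
      refine mem_erase.mpr ⟨?_, hYX hy⟩
      rintro rfl
      exact hrY hy
    · exact mem_biUnion.mpr ⟨v, mem_filter.mpr ⟨mem_erase.mpr ⟨hadj.ne, hv⟩, hvD⟩,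
        (mem_nb G).mpr hadj⟩
  have h2 := Set.ncard_le_ncard h1 (Finset.finite_toSet _)
  rw [Set.ncard_coe_finset] at h2
  have h3 : ((above Y (k - 1)).biUnion fun A =>
      (lowNb G (3 * k - 2) A).image fun r => insert r A).card ≤
      (above Y (k - 1)).card * ((k - 1) * (3 * k - 2)) := by
    refine card_biUnion_le_card_mul _ _ _ fun A hA => card_image_le.trans ?_
    have := lowNb_card G (3 * k - 2) A
    rwa [(mem_above.mp hA).1] at this
  have h4 : {X : Finset V | X.card = k ∧ Y ⊆ X} = ((above Y k : Finset (Finset V)) :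
      Set (Finset V)) := by
    ext X
    rw [mem_coe, mem_above]
    rfl
  rw [h4, Set.ncard_coe_finset]
  obtain ⟨m, rfl⟩ : ∃ m, k = m + 1 := ⟨k - 1, by omega⟩
  have h5 := above_mul Y m
  have h6 : Fintype.card V + 1 - (m + 1) = Fintype.card V - m := by omega
  have h7 : m + 1 - 1 = m := rfl
  have h8 : 3 * (m + 1) - 2 = 3 * m + 1 := by omega
  rw [h7, h8] at h2 h3
  rw [h6]
  calc {X : Finset V | X.card = m + 1 ∧ Y ⊆ X ∧ ¬ DisjCycles G X}.ncard * (Fintype.card V - m)
      ≤ (above Y m).card * (m * (3 * m + 1)) * (Fintype.card V - m) :=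
        Nat.mul_le_mul_right _ (h2.trans h3)
    _ = (above Y m).card * (Fintype.card V - m) * (m * (3 * m + 1)) := by ring
    _ ≤ (above Y (m + 1)).card * (m + 1) * (m * (3 * m + 1)) := Nat.mul_le_mul_right _ h5
    _ = ((m + 1) * (m * (3 * m + 1))) * (above Y (m + 1)).card := by ring
    _ ≤ 3 * (m + 1) ^ 3 * (above Y (m + 1)).card := by
        refine Nat.mul_le_mul_right _ ?_
        nlinarith

end Pool.Agent.Helper17.DC
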